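import Mathlib

set_option autoImplicit false

namespace Pool.Agent.Lib.MP_edb5be_nt.H13

/-- The `3x+1` map `T` on the integers: `T x = x/2` if `x` is even, `(3x+1)/2` if `x` is odd. -/
def T (x : ℤ) : ℤ := if x % 2 = 0 then x / 2 else (3 * x + 1) / 2

end Pool.Agent.Lib.MP_edb5be_nt.H13
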