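import Mathlib
import Pool.Agent.Lib.MP_edb5be_nt.H13.Defs

set_option autoImplicit false

namespace Pool.Agent.Lib.MP_edb5be_nt.H13

open Function

theorem two_mul_T_even {x : ℤ} (h : x % 2 = 0) : 2 * T x = x := by
  rw [T, if_pos h]
  omega

theorem two_mul_T_odd {x : ℤ} (h : x % 2 ≠ 0) : 2 * T x = 3 * x + 1 := by
  rw [T, if_neg h]
  omega

theorem T_eq_zero {x : ℤ} : T x = 0 ↔ x = 0 := by
  unfold T
  split_ifs with h <;> omega

/-- The set of times `j < n` at which the orbit of `x` is odd. -/
def par (n : ℕ) (x : ℤ) : Finset ℕ := (Finset.range n).filter fun j => T^[j] x % 2 ≠ 0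

theorem par_zero (x : ℤ) : par 0 x = ∅ := by simp [par]

theorem par_succ_even {n : ℕ} {x : ℤ} (h : T^[n] x % 2 = 0) : par (n + 1) x = par n x := by
  simp [par, Finset.range_add_one, Finset.filter_insert, h]

theorem par_succ_odd {n : ℕ} {x : ℤ} (h : T^[n] x % 2 ≠ 0) :
    par (n + 1) x = insert n (par n x) := by
  simp [par, Finset.range_add_one, Finset.filter_insert, h]

theorem card_par_succ_odd {n : ℕ} {x : ℤ} (h : T^[n] x % 2 ≠ 0) :
    (par (n + 1) x).card = (par n x).card + 1 := by
  rw [par_succ_odd h, Finset.card_insert_of_notMem]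
  simp [par]

theorem card_par_succ_even {n : ℕ} {x : ℤ} (h : T^[n] x % 2 = 0) :
    (par (n + 1) x).card = (par n x).card := by
  rw [par_succ_even h]

theorem card_par_le (n : ℕ) (x : ℤ) : (par n x).card ≤ n := by
  have := Finset.card_filter_le (Finset.range n) fun j => T^[j] x % 2 ≠ 0
  rw [Finset.card_range] at this
  exact this

/-- If the parities of the first `n` iterates of `x` and `y` agree, then the difference evolves
affinely. -/
theorem diff_formula (n : ℕ) (x y : ℤ) (h : ∀ j < n, T^[j] x % 2 = T^[j] y % 2) :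
    2 ^ n * (T^[n] x - T^[n] y) = 3 ^ (par n x).card * (x - y) := by
  induction n with
  | zero => simp [par_zero]
  | succ n ih =>
    have ih' := ih fun j hj => h j (by omega)
    have hn := h n (by omega)
    rw [iterate_succ_apply', iterate_succ_apply']
    by_cases hx : T^[n] x % 2 = 0
    · have hy : T^[n] y % 2 = 0 := by rw [← hn]; exact hx
      rw [card_par_succ_even hx]
      have h1 := two_mul_T_even hx
      have h2 := two_mul_T_even hy
      linear_combination ih' + 2 ^ n * h1 - 2 ^ n * h2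
    · have hy : T^[n] y % 2 ≠ 0 := by rw [← hn]; exact hx
      rw [card_par_succ_odd hx]
      have h1 := two_mul_T_odd hx
      have h2 := two_mul_T_odd hy
      linear_combination 3 * ih' + 2 ^ n * h1 - 2 ^ n * h2

theorem par_eq_iff (n : ℕ) (x y : ℤ) :
    par n x = par n y ↔ ∀ j < n, T^[j] x % 2 = T^[j] y % 2 := by
  constructor
  · intro h j hj
    have h1 : (j ∈ par n x) ↔ (j ∈ par n y) := by rw [h]
    simp only [par, Finset.mem_filter, Finset.mem_range, hj, true_and] at h1
    have h2 := Int.emod_two_eq_zero_or_one (T^[j] x)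
    have h3 := Int.emod_two_eq_zero_or_one (T^[j] y)
    omega
  · intro h
    ext j
    simp only [par, Finset.mem_filter, Finset.mem_range]
    constructor
    · rintro ⟨h1, h2⟩
      exact ⟨h1, by rw [← h j h1]; exact h2⟩
    · rintro ⟨h1, h2⟩
      exact ⟨h1, by rw [h j h1]; exact h2⟩

theorem dvd_of_par_eq (n : ℕ) (x y : ℤ) (h : par n x = par n y) : (2 : ℤ) ^ n ∣ x - y := by
  have h1 := diff_formula n x y ((par_eq_iff n x y).1 h)
  have h2 : (2 : ℤ) ^ n ∣ 3 ^ (par n x).card * (x - y) := ⟨_, h1.symm⟩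
  have h3 : IsCoprime ((2 : ℤ) ^ n) (3 ^ (par n x).card) := by
    apply IsCoprime.pow
    norm_num
  exact h3.dvd_of_dvd_mul_left h2

/-- Upper bound for iterates. -/
theorem iterate_bound (n : ℕ) (x : ℤ) :
    2 ^ (par n x).card * (2 ^ n * (|T^[n] x| + 1)) ≤
      3 ^ (par n x).card * (2 ^ (par n x).card * |x| + 2 ^ n) := by
  induction n with
  | zero => simp [par_zero]
  | succ n ih =>
    rw [iterate_succ_apply']
    by_cases hx : T^[n] x % 2 = 0
    · rw [card_par_succ_even hx]
      have h1 : 2 * |T (T^[n] x)| = |T^[n] x| := by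
        have := two_mul_T_even hx
        rw [← this, abs_mul]
        simp
        rw [this]
      have h23 : (2 : ℤ) ^ (par n x).card ≤ 3 ^ (par n x).card :=
        pow_le_pow_left₀ (by norm_num) (by norm_num) _
      have h4 : (2 : ℤ) ^ (par n x).card * 2 ^ n ≤ 3 ^ (par n x).card * 2 ^ n :=
        mul_le_mul_of_nonneg_right h23 (by positivity)
      calc (2 : ℤ) ^ (par n x).card * (2 ^ (n + 1) * (|T (T^[n] x)| + 1))
          = 2 ^ (par n x).card * (2 ^ n * (2 * |T (T^[n] x)| + 2)) := by ring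
        _ = 2 ^ (par n x).card * (2 ^ n * (|T^[n] x| + 1)) + 2 ^ (par n x).card * 2 ^ n := by
            rw [h1]; ring
        _ ≤ 3 ^ (par n x).card * (2 ^ (par n x).card * |x| + 2 ^ n)
            + 3 ^ (par n x).card * 2 ^ n := add_le_add ih h4
        _ = _ := by ring
    · rw [card_par_succ_odd hx]
      have h1 : 2 * |T (T^[n] x)| ≤ 3 * |T^[n] x| + 1 := by
        have h2 := two_mul_T_odd hx
        have h3 : |2 * T (T^[n] x)| ≤ 3 * |T^[n] x| + 1 := by
          rw [h2]
          calc |3 * T^[n] x + 1| ≤ |3 * T^[n] x| + |1| := abs_add_le _ _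
            _ = 3 * |T^[n] x| + 1 := by rw [abs_mul]; norm_num
        rw [abs_mul] at h3
        simpa using h3
      calc (2 : ℤ) ^ ((par n x).card + 1) * (2 ^ (n + 1) * (|T (T^[n] x)| + 1))
          = 2 ^ ((par n x).card + 1) * (2 ^ n * (2 * |T (T^[n] x)| + 2)) := by ring
        _ ≤ 2 ^ ((par n x).card + 1) * (2 ^ n * (3 * |T^[n] x| + 1 + 2)) := by gcongr
        _ = 6 * (2 ^ (par n x).card * (2 ^ n * (|T^[n] x| + 1))) := by ring
        _ ≤ 6 * (3 ^ (par n x).card * (2 ^ (par n x).card * |x| + 2 ^ n)) := by gcongr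
        _ = _ := by ring

end Pool.Agent.Lib.MP_edb5be_nt.H13
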