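import Mathlib
import Pool.Agent.Lib.MP_edb5be_nt.H13.Basic

set_option autoImplicit false

namespace Pool.Agent.Lib.MP_edb5be_nt.H13

open Function

open scoped Classical in
/-- periodic points of absolute value at most `Y` -/
noncomputable def perSet (Y : ℕ) : Finset ℤ :=
  (Finset.Icc (-(Y : ℤ)) Y).filter (fun x => x ∈ periodicPts T)

theorem mem_perSet {Y : ℕ} {x : ℤ} : x ∈ perSet Y ↔ |x| ≤ Y ∧ x ∈ periodicPts T := by
  simp [perSet, abs_le]

/-- words of length `n` (as sets of positions of the ones) with at least `a n / b` ones -/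
def words (a b n : ℕ) : Finset (Finset ℕ) :=
  (Finset.range n).powerset.filter fun s => a * n ≤ b * s.card

theorem card_words_le (a b n : ℕ) (hb : 0 < b) (z : ℝ) (hz : 1 ≤ z) :
    ((words a b n).card : ℝ) ≤ ((1 + z) * z ^ (-((a : ℝ) / b))) ^ n := by
  have hz0 : 0 < z := by linarith
  have h1 : ∑ s ∈ (Finset.range n).powerset, z ^ s.card = (1 + z) ^ n := by
    have := Finset.sum_pow_mul_eq_add_pow z (1 : ℝ) (Finset.range n)
    simp only [one_pow, mul_one, Finset.card_range] at this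
    rw [this, add_comm]
  have h2 : ((words a b n).card : ℝ) * (z ^ ((a : ℝ) / b)) ^ n ≤ (1 + z) ^ n := by
    rw [← h1, ← nsmul_eq_mul, ← Finset.sum_const]
    calc ∑ _s ∈ words a b n, (z ^ ((a : ℝ) / b)) ^ n
        ≤ ∑ s ∈ words a b n, z ^ s.card := by
          refine Finset.sum_le_sum fun s hs => ?_
          have hs2 : a * n ≤ b * s.card := (Finset.mem_filter.1 hs).2
          rw [← Real.rpow_natCast (z ^ ((a : ℝ) / b)) n, ← Real.rpow_mul hz0.le,
            ← Real.rpow_natCast z s.card]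
          refine Real.rpow_le_rpow_of_exponent_le hz ?_
          have hb' : (0 : ℝ) < b := by exact_mod_cast hb
          rw [div_mul_eq_mul_div, div_le_iff₀ hb']
          have : ((a * n : ℕ) : ℝ) ≤ ((b * s.card : ℕ) : ℝ) := by exact_mod_cast hs2
          push_cast at this
          linarith
      _ ≤ ∑ s ∈ (Finset.range n).powerset, z ^ s.card := by
          refine Finset.sum_le_sum_of_subset_of_nonneg (Finset.filter_subset _ _) ?_
          intro s _ _
          positivity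
  have h3 : 0 < (z ^ ((a : ℝ) / b)) ^ n := by positivity
  calc ((words a b n).card : ℝ)
      = ((words a b n).card : ℝ) * (z ^ ((a : ℝ) / b)) ^ n * ((z ^ ((a : ℝ) / b)) ^ n)⁻¹ := by
        field_simp
    _ ≤ (1 + z) ^ n * ((z ^ ((a : ℝ) / b)) ^ n)⁻¹ := by gcongr
    _ = _ := by rw [Real.rpow_neg hz0.le, mul_pow, inv_pow]

/-- The periodic points `x` with `|x| ≤ 2^n` and at least `a n / b` odd steps among the first `n`
are few. -/
theorem card_bad_le (a b n : ℕ) :
    ((perSet (2 ^ n)).filter fun x => a * n ≤ b * (par n x).card).card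
      ≤ 3 * (words a b n).card := by
  refine Finset.card_le_mul_card_image_of_maps_to (f := fun x => par n x) (t := words a b n)
    ?_ 3 ?_
  · intro x hx
    rw [words, Finset.mem_filter, Finset.mem_powerset]
    exact ⟨Finset.filter_subset _ _, (Finset.mem_filter.1 hx).2⟩
  · intro s _
    have hmaps : ∀ x ∈ ((perSet (2 ^ n)).filter fun x => a * n ≤ b * (par n x).card).filter
        (fun x => par n x = s), x / 2 ^ n ∈ Finset.Icc (-1 : ℤ) 1 := by
      intro x hx
      simp only [Finset.mem_filter, mem_perSet] at hx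
      obtain ⟨⟨⟨h1, -⟩, -⟩, -⟩ := hx
      have h2 := abs_le.1 h1
      push_cast at h2
      rw [Finset.mem_Icc]
      have hpos : (0 : ℤ) < 2 ^ n := by positivity
      constructor
      · rw [Int.le_ediv_iff_mul_le hpos]
        linarith [h2.1]
      · have : x / 2 ^ n < 2 := by
          rw [Int.ediv_lt_iff_lt_mul hpos]
          linarith [h2.2]
        omega
    have hinj : Set.InjOn (fun x : ℤ => x / 2 ^ n)
        (((perSet (2 ^ n)).filter fun x => a * n ≤ b * (par n x).card).filter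
        (fun x => par n x = s)) := by
      intro x hx y hy hxy
      simp only [Finset.coe_filter, Set.mem_ofPred_eq, Finset.mem_filter] at hx hy
      have h1 : par n x = par n y := by rw [hx.2, hy.2]
      have h2 := dvd_of_par_eq n x y h1
      have h3 : x % 2 ^ n = y % 2 ^ n := by
        exact (Int.emod_emod_of_dvd x (dvd_refl _)).symm.trans
          ((Int.emod_emod_of_dvd x (dvd_refl _)).trans (Int.emod_eq_emod_iff_emod_sub_eq_zero.2
            (Int.emod_eq_zero_of_dvd h2)))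
      have h4 := Int.mul_ediv_add_emod x (2 ^ n)
      have h5 := Int.mul_ediv_add_emod y (2 ^ n)
      simp only at hxy
      rw [← h4, ← h5, hxy, h3]
    calc _ ≤ (Finset.Icc (-1 : ℤ) 1).card :=
          Finset.card_le_card_of_injOn (fun x : ℤ => x / 2 ^ n) hmaps hinj
      _ = 3 := by decide

theorem iterate_injOn (n : ℕ) : Set.InjOn (T^[n]) (periodicPts T) :=
  ((bijOn_periodicPts T).iterate n).injOn

/-- for large `n`, few odd steps among the first `n` makes `|x| ≤ 2^n` drop below `2^(n-1)`. -/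
theorem exists_large (a b : ℕ) (hb : 0 < b) (h : 3 ^ a < 2 ^ b) :
    ∃ n0 : ℕ, 1 ≤ n0 ∧ ∀ n, n0 ≤ n → ∀ k : ℕ, b * k < a * n → (4 : ℤ) * 3 ^ k ≤ 2 ^ n := by
  have hr : (1 : ℝ) < (2 : ℝ) ^ b / 3 ^ a := by
    rw [one_lt_div (by positivity)]
    exact_mod_cast h
  obtain ⟨m, hm⟩ := pow_unbounded_of_one_lt ((4 : ℝ) ^ b) hr
  refine ⟨m + 1, by omega, fun n hn k hk => ?_⟩
  have h1 : (4 : ℝ) ^ b ≤ ((2 : ℝ) ^ b / 3 ^ a) ^ n :=
    hm.le.trans (pow_le_pow_right₀ hr.le (by omega))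
  have h2 : ((4 : ℝ) * 3 ^ k) ^ b ≤ (2 ^ n) ^ b := by
    rw [div_pow, le_div_iff₀ (by positivity)] at h1
    calc ((4 : ℝ) * 3 ^ k) ^ b = 4 ^ b * 3 ^ (b * k) := by ring
      _ ≤ 4 ^ b * 3 ^ (a * n) := by
          gcongr
          norm_num
      _ = 4 ^ b * (3 ^ a) ^ n := by ring
      _ ≤ (2 ^ b) ^ n := h1
      _ = (2 ^ n) ^ b := by ring
  have h3 : (4 : ℝ) * 3 ^ k ≤ 2 ^ n := le_of_pow_le_pow_left₀ hb.ne' (by positivity) h2
  exact_mod_cast h3

theorem card_good_le (a b n : ℕ)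
    (h : ∀ k : ℕ, b * k < a * (n + 1) → (4 : ℤ) * 3 ^ k ≤ 2 ^ (n + 1)) :
    ((perSet (2 ^ (n + 1))).filter fun x => ¬ a * (n + 1) ≤ b * (par (n + 1) x).card).card
      ≤ (perSet (2 ^ n)).card := by
  refine Finset.card_le_card_of_injOn (T^[n + 1]) ?_ ?_
  · intro x hx
    simp only [Finset.coe_filter, Set.mem_ofPred_eq, mem_perSet, not_le] at hx
    obtain ⟨⟨h1, h2⟩, h3⟩ := hx
    rw [Finset.mem_coe, mem_perSet]
    refine ⟨?_, ((bijOn_periodicPts T).iterate (n + 1)).mapsTo h2⟩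
    have h4 := h _ h3
    have h5 := iterate_bound (n + 1) x
    push_cast at h1 ⊢
    set k := (par (n + 1) x).card with hk
    set c := |T^[n + 1] x| with hc
    -- `2^k 2^(n+1) (c+1) ≤ 3^k (2^k |x| + 2^(n+1)) ≤ 3^k 2^(n+1) (2^k + 1)`
    have h6 : (2 : ℤ) ^ k * (2 ^ (n + 1) * (c + 1)) ≤ 2 ^ (n + 1) * (3 ^ k * (2 ^ k + 1)) := by
      calc (2 : ℤ) ^ k * (2 ^ (n + 1) * (c + 1)) ≤ 3 ^ k * (2 ^ k * |x| + 2 ^ (n + 1)) := h5
        _ ≤ 3 ^ k * (2 ^ k * 2 ^ (n + 1) + 2 ^ (n + 1)) := by gcongr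
        _ = _ := by ring
    have h7 : (2 : ℤ) ^ k * (c + 1) ≤ 3 ^ k * (2 ^ k + 1) := by
      have hpos : (0 : ℤ) < 2 ^ (n + 1) := by positivity
      have : (2 : ℤ) ^ (n + 1) * (2 ^ k * (c + 1)) ≤ 2 ^ (n + 1) * (3 ^ k * (2 ^ k + 1)) := by
        calc _ = (2 : ℤ) ^ k * (2 ^ (n + 1) * (c + 1)) := by ring
          _ ≤ _ := h6
      exact le_of_mul_le_mul_left this hpos
    have h8 : (2 : ℤ) ^ k * (c + 1) ≤ 2 ^ k * (2 * 3 ^ k) := by
      have h9 : (2 : ℤ) ^ k + 1 ≤ 2 * 2 ^ k := by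
        have : (1 : ℤ) ≤ 2 ^ k := one_le_pow₀ (by norm_num)
        linarith
      calc (2 : ℤ) ^ k * (c + 1) ≤ 3 ^ k * (2 ^ k + 1) := h7
        _ ≤ 3 ^ k * (2 * 2 ^ k) := by gcongr
        _ = _ := by ring
    have h10 : c + 1 ≤ 2 * 3 ^ k := le_of_mul_le_mul_left h8 (by positivity)
    have h11 : (2 : ℤ) ^ (n + 1) = 2 * 2 ^ n := by ring
    linarith
  · exact (iterate_injOn (n + 1)).mono fun x hx => by
      simp only [Finset.coe_filter, Set.mem_ofPred_eq, mem_perSet] at hx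
      exact hx.1.2

theorem card_step (a b n : ℕ)
    (h : ∀ k : ℕ, b * k < a * (n + 1) → (4 : ℤ) * 3 ^ k ≤ 2 ^ (n + 1)) :
    (perSet (2 ^ (n + 1))).card ≤ (perSet (2 ^ n)).card + 3 * (words a b (n + 1)).card := by
  have h1 := Finset.card_filter_add_card_filter_not (s := perSet (2 ^ (n + 1)))
    (fun x => a * (n + 1) ≤ b * (par (n + 1) x).card)
  have h2 := card_bad_le a b (n + 1)
  have h3 := card_good_le a b n h
  omega

/-- Main counting bound. -/
theorem card_perSet_le (a b : ℕ) (hb : 0 < b) (hab : 3 ^ a < 2 ^ b) (z c : ℝ) (hz : 1 ≤ z)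
    (hc : 1 < c) (hzc : (1 + z) * z ^ (-((a : ℝ) / b)) ≤ c) :
    ∃ C : ℝ, 0 < C ∧ ∀ n : ℕ, ((perSet (2 ^ n)).card : ℝ) ≤ C * c ^ n := by
  obtain ⟨n0, hn0, hlarge⟩ := exists_large a b hb hab
  have hz0 : 0 < z := by linarith
  have hwords : ∀ n, ((words a b n).card : ℝ) ≤ c ^ n := fun n =>
    (card_words_le a b n hb z hz).trans (pow_le_pow_left₀ (by positivity) hzc n)
  set M : ℝ := ((perSet (2 ^ n0)).card : ℝ) with hM
  set C : ℝ := M + 3 * c / (c - 1) + 1 with hC
  have hc1 : 0 < c - 1 := by linarith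
  have hc0 : 0 < c := by linarith
  have hM0 : 0 ≤ M := by positivity
  have hC0 : 0 < C := by positivity
  have hCc : C + 3 * c ≤ C * c := by
    have h1 : 3 * c / (c - 1) * (c - 1) = 3 * c := by field_simp
    have h2 : 3 * c / (c - 1) ≤ C := by rw [hC]; linarith
    have h3 : 3 * c / (c - 1) * (c - 1) ≤ C * (c - 1) := mul_le_mul_of_nonneg_right h2 hc1.le
    rw [h1] at h3
    linarith
  refine ⟨C, hC0, fun n => ?_⟩
  rcases le_total n n0 with h | h
  · have hsub : perSet (2 ^ n) ⊆ perSet (2 ^ n0) := by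
      intro x hx
      rw [mem_perSet] at hx ⊢
      refine ⟨hx.1.trans ?_, hx.2⟩
      exact_mod_cast Nat.pow_le_pow_right (by norm_num) h
    have h1 : ((perSet (2 ^ n)).card : ℝ) ≤ M := by
      rw [hM]
      exact_mod_cast Finset.card_le_card hsub
    have h2 : (1 : ℝ) ≤ c ^ n := one_le_pow₀ hc.le
    have h3 : 0 < 3 * c / (c - 1) := by positivity
    calc ((perSet (2 ^ n)).card : ℝ) ≤ M := h1
      _ ≤ C := by rw [hC]; linarith
      _ ≤ C * c ^ n := le_mul_of_one_le_right hC0.le h2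
  · induction n, h using Nat.le_induction with
    | base =>
      have h2 : (1 : ℝ) ≤ c ^ n0 := one_le_pow₀ hc.le
      have h3 : 0 < 3 * c / (c - 1) := by positivity
      calc M ≤ C := by rw [hC]; linarith
        _ ≤ C * c ^ n0 := le_mul_of_one_le_right hC0.le h2
    | succ n hn ih =>
      have h1 := card_step a b n (hlarge (n + 1) (by omega))
      have h2 : ((perSet (2 ^ (n + 1))).card : ℝ)
          ≤ (perSet (2 ^ n)).card + 3 * (words a b (n + 1)).card := by exact_mod_cast h1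
      have h3 := hwords (n + 1)
      have h4 : (0 : ℝ) < c ^ n := by positivity
      calc ((perSet (2 ^ (n + 1))).card : ℝ) ≤ C * c ^ n + 3 * c ^ (n + 1) := by linarith
        _ = (C + 3 * c) * c ^ n := by ring
        _ ≤ (C * c) * c ^ n := by gcongr
        _ = C * c ^ (n + 1) := by ring

end Pool.Agent.Lib.MP_edb5be_nt.H13
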