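import Mathlib
import Pool.Agent.Lib.MP_edb5be_nt.H13.Numeric

/-!
# Explicit counting: the tail and the explicit bound `∑ 1/|y| ≤ 267/100`
-/

set_option autoImplicit false

namespace Pool.Agent.Lib.MP_edb5be_nt.H13

open Function

theorem pow_succ_bound (m : ℕ) (hm : 768 ≤ m) : (m + 1) ^ 65 ≤ 3 * m ^ 65 := by
  have h1 : (m + 1) * 768 ≤ m * 769 := by omega
  have h2 : ((m + 1) * 768) ^ 65 ≤ (m * 769) ^ 65 := Nat.pow_le_pow_left h1 65
  rw [mul_pow, mul_pow] at h2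
  have h3 : 769 ^ 65 ≤ 3 * 768 ^ 65 := by norm_num
  have h4 : (m + 1) ^ 65 * 768 ^ 65 ≤ (3 * m ^ 65) * 768 ^ 65 := by
    calc (m + 1) ^ 65 * 768 ^ 65 ≤ m ^ 65 * 769 ^ 65 := h2
      _ ≤ m ^ 65 * (3 * 768 ^ 65) := Nat.mul_le_mul_left _ h3
      _ = (3 * m ^ 65) * 768 ^ 65 := by ring
  exact Nat.le_of_mul_le_mul_right h4 (by positivity)

/-- if a word stays above, it has many odd steps -/
theorem many_odd (n k : ℕ) (hn : 202 ≤ n)
    (h : 2 ^ k * (3 * 2 ^ n + 2) ≤ 2 ^ k * 3 ^ (k + 1) * 1 + 3 ^ k) : 41 * n ≤ 65 * k := by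
  by_contra hcon
  push Not at hcon
  have h1 : (3 * 2 ^ k) * 2 ^ n < 3 ^ k * (3 * 2 ^ k + 1) := by
    have e1 : 2 ^ k * (3 * 2 ^ n + 2) = (3 * 2 ^ k) * 2 ^ n + 2 * 2 ^ k := by ring
    have e2 : 2 ^ k * 3 ^ (k + 1) * 1 + 3 ^ k = 3 ^ k * (3 * 2 ^ k + 1) := by ring
    have e3 : 0 < 2 ^ k := by positivity
    omega
  rcases Nat.lt_or_ge k 8 with hk | hk
  · have h2 : 3 ^ k ≤ 3 ^ 7 := Nat.pow_le_pow_right (by norm_num) (by omega)
    have h3 : 2 ^ 202 ≤ 2 ^ n := Nat.pow_le_pow_right (by norm_num) hn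
    have h4 : 3 * 2 ^ k + 1 ≤ 2 * (3 * 2 ^ k) := by
      have : 0 < 2 ^ k := by positivity
      omega
    have h5 : 3 ^ k * (3 * 2 ^ k + 1) ≤ 3 ^ 7 * (2 * (3 * 2 ^ k)) := Nat.mul_le_mul h2 h4
    have h6 : (3 * 2 ^ k) * 2 ^ 202 ≤ (3 * 2 ^ k) * 2 ^ n := Nat.mul_le_mul_left _ h3
    have h7 : 0 < 3 * 2 ^ k := by positivity
    have h8 : (3 * 2 ^ k) * 2 ^ 202 < (3 * 2 ^ k) * (2 * 3 ^ 7) := by
      calc _ ≤ _ := h6
        _ < _ := h1
        _ ≤ _ := h5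
        _ = _ := by ring
    have h9 := Nat.lt_of_mul_lt_mul_left h8
    norm_num at h9
  · have hm : 768 ≤ 3 * 2 ^ k := by
      have : 2 ^ 8 ≤ 2 ^ k := Nat.pow_le_pow_right (by norm_num) hk
      omega
    have h2 := pow_succ_bound (3 * 2 ^ k) hm
    have h3 : ((3 * 2 ^ k) * 2 ^ n) ^ 65 < (3 ^ k * (3 * 2 ^ k + 1)) ^ 65 :=
      Nat.pow_lt_pow_left h1 (by norm_num)
    have h4 : (3 * 2 ^ k) ^ 65 * 2 ^ (65 * n) < (3 * 2 ^ k) ^ 65 * 3 ^ (65 * k + 1) := by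
      calc (3 * 2 ^ k) ^ 65 * 2 ^ (65 * n) = ((3 * 2 ^ k) * 2 ^ n) ^ 65 := by
            rw [mul_pow (3 * 2 ^ k) (2 ^ n) 65, ← pow_mul 2 n 65, mul_comm n 65]
        _ < (3 ^ k * (3 * 2 ^ k + 1)) ^ 65 := h3
        _ = 3 ^ (65 * k) * (3 * 2 ^ k + 1) ^ 65 := by
            rw [mul_pow (3 ^ k) (3 * 2 ^ k + 1) 65, ← pow_mul 3 k 65, mul_comm k 65]
        _ ≤ 3 ^ (65 * k) * (3 * (3 * 2 ^ k) ^ 65) := Nat.mul_le_mul_left _ h2
        _ = (3 * 2 ^ k) ^ 65 * 3 ^ (65 * k + 1) := by ring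
    have h5 : 2 ^ (65 * n) < 3 ^ (65 * k + 1) := Nat.lt_of_mul_lt_mul_left h4
    have h6 : 3 ^ (65 * k + 1) ≤ 3 ^ (41 * n) := Nat.pow_le_pow_right (by norm_num) (by omega)
    have h7 : 3 ^ (41 * n) ≤ 2 ^ (65 * n) := by
      rw [pow_mul, pow_mul]
      exact Nat.pow_le_pow_left (by norm_num) n
    omega

theorem bad_tail (n : ℕ) (hn : 202 ≤ n) :
    (bad (n + 1) 1 (3 * 2 ^ n) : ℝ) ≤ 271 / 100 * (1932 / 1000) ^ n := by
  rw [bad_eq]
  push_cast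
  set z : ℝ := 171 / 100 with hz
  have hz0 : 0 < z := by norm_num [hz]
  have hz1 : 1 ≤ z := by norm_num [hz]
  have hgc : ∀ k, (gc 1 (3 * 2 ^ n) k : ℝ) ≤ z ^ k * (z ^ ((41 : ℝ) / 65 * n))⁻¹ := by
    intro k
    by_cases h : 2 ^ k * (3 * 2 ^ n + 2) ≤ 2 ^ k * 3 ^ (k + 1) * 1 + 3 ^ k
    · have h1 : gc 1 (3 * 2 ^ n) k ≤ 1 := by
        rw [gc]
        refine (Finset.card_filter_le _ _).trans ?_
        simp
      have h2 := many_odd n k hn h
      have h3 : (1 : ℝ) ≤ z ^ k * (z ^ ((41 : ℝ) / 65 * n))⁻¹ := by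
        rw [← div_eq_mul_inv, one_le_div (by positivity), ← Real.rpow_natCast z k]
        refine Real.rpow_le_rpow_of_exponent_le hz1 ?_
        have h4 : (41 : ℝ) * n ≤ 65 * k := by exact_mod_cast h2
        linarith
      have h4 : (gc 1 (3 * 2 ^ n) k : ℝ) ≤ 1 := by exact_mod_cast h1
      linarith
    · have h1 : gc 1 (3 * 2 ^ n) k = 0 := by
        rw [gc, Finset.card_eq_zero, Finset.filter_eq_empty_iff]
        intro j hj hcon
        rw [Finset.mem_Icc] at hj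
        have : j = 1 := by omega
        rw [this] at hcon
        exact h hcon
      rw [h1]
      push_cast
      positivity
  have h1 : ∑ k ∈ Finset.range (n + 1 + 1), ((n + 1).choose k : ℝ) * (gc 1 (3 * 2 ^ n) k : ℝ)
      ≤ (1 + z) ^ (n + 1) * (z ^ ((41 : ℝ) / 65 * n))⁻¹ := by
    calc _ ≤ ∑ k ∈ Finset.range (n + 1 + 1), ((n + 1).choose k : ℝ) *
          (z ^ k * (z ^ ((41 : ℝ) / 65 * n))⁻¹) := by
          refine Finset.sum_le_sum fun k _ => ?_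
          exact mul_le_mul_of_nonneg_left (hgc k) (by positivity)
      _ = (∑ k ∈ Finset.range (n + 1 + 1), z ^ k * 1 ^ (n + 1 - k) * ((n + 1).choose k : ℝ))
          * (z ^ ((41 : ℝ) / 65 * n))⁻¹ := by
          rw [Finset.sum_mul]
          refine Finset.sum_congr rfl fun k _ => ?_
          rw [one_pow]
          ring
      _ = _ := by rw [← add_pow, add_comm z 1]
  refine h1.trans ?_
  have hc : (1 + z) * (z ^ ((41 : ℝ) / 65))⁻¹ ≤ 1932 / 1000 := by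
    rw [mul_inv_le_iff₀ (by positivity)]
    refine le_of_pow_le_pow_left₀ (n := 65) (by norm_num) (by positivity) ?_
    rw [mul_pow, ← Real.rpow_mul_natCast hz0.le]
    rw [hz]
    norm_num
  have h2 : (z ^ ((41 : ℝ) / 65 * n)) = (z ^ ((41 : ℝ) / 65)) ^ n := by
    rw [Real.rpow_mul hz0.le, Real.rpow_natCast]
  rw [h2]
  calc (1 + z) ^ (n + 1) * ((z ^ ((41 : ℝ) / 65)) ^ n)⁻¹
      = (1 + z) * ((1 + z) * (z ^ ((41 : ℝ) / 65))⁻¹) ^ n := by
        rw [mul_pow, inv_pow, pow_succ]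
        ring
    _ ≤ (1 + z) * (1932 / 1000) ^ n := by gcongr
    _ = 271 / 100 * (1932 / 1000) ^ n := by rw [hz]; norm_num

theorem cnt_tail {A : Finset ℤ} (hA : Nice A) (n : ℕ) (hn : 202 ≤ n) :
    (cnt A (3 * 2 ^ n) : ℝ) ≤ 6 * (1932 / 1000) ^ n := by
  induction n, hn using Nat.le_induction with
  | base =>
    have h := (chk_sound hA table [] 16777215 0 (by simp) (by norm_num)
      (by rw [gsum_small hA]; norm_num) table_ok _ table_last).1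
    simp only at h
    have e : 3 * 4 * 2 ^ 200 = 3 * 2 ^ 202 := by norm_num
    rw [e] at h
    have h2 : (cnt A (3 * 2 ^ 202) : ℝ) ≤
        (2490037210000000000000000000000000000000000000000000000000 : ℕ) := by exact_mod_cast h
    refine h2.trans ?_
    norm_num
  | succ n hn ih =>
    have h1 := cnt_rec hA (n + 1) 1 (3 * 2 ^ n)
    have h2 := bad_tail n hn
    have h3 : (cnt A (3 * 2 ^ (n + 1)) : ℝ) ≤ cnt A (3 * 2 ^ n) + 2 * bad (n + 1) 1 (3 * 2 ^ n) := by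
      exact_mod_cast h1
    have h4 : (0 : ℝ) < (1932 / 1000) ^ n := by positivity
    have h5 : (1932 / 1000 : ℝ) ^ (n + 1) = (1932 / 1000) ^ n * (1932 / 1000) := pow_succ _ _
    rw [h5]
    linarith

theorem gsum_tail {A : Finset ℤ} (hA : Nice A) (n : ℕ) (hn : 202 ≤ n) :
    gsum A (3 * 2 ^ n) ≤ 2607699 / 1000000 +
      1000 / 17 * ((966 / 1000) ^ 203 - (966 / 1000) ^ (n + 1)) := by
  induction n, hn using Nat.le_induction with
  | base =>
    have h := (chk_sound hA table [] 16777215 0 (by simp) (by norm_num)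
      (by rw [gsum_small hA]; norm_num) table_ok _ table_last).2
    simp only at h
    have e : 3 * 4 * 2 ^ 200 = 3 * 2 ^ 202 := by norm_num
    rw [e] at h
    refine h.trans ?_
    norm_num
  | succ n hn ih =>
    have h1 := gsum_step (A := A) (3 * 2 ^ n) (3 * 2 ^ (n + 1)) (by positivity)
      (Nat.mul_le_mul_left 3 (Nat.pow_le_pow_right (by norm_num) (by omega)))
    have h2 := cnt_tail hA (n + 1) (by omega)
    have h3 : 1 / ((3 * 2 ^ n : ℕ) : ℝ) - 1 / ((3 * 2 ^ (n + 1) : ℕ) : ℝ)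
        = 1 / (3 * 2 ^ (n + 1)) := by
      push_cast
      field_simp
      ring
    rw [h3] at h1
    have h4 : (cnt A (3 * 2 ^ (n + 1)) : ℝ) * (1 / (3 * 2 ^ (n + 1)))
        ≤ 2 * (966 / 1000) ^ (n + 1) := by
      calc _ ≤ 6 * (1932 / 1000) ^ (n + 1) * (1 / (3 * (2 : ℝ) ^ (n + 1))) := by gcongr
        _ = 2 * ((1932 / 1000) ^ (n + 1) / (2 : ℝ) ^ (n + 1)) := by
            field_simp
            ring
        _ = 2 * (966 / 1000) ^ (n + 1) := by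
            rw [← div_pow]
            norm_num
    have h5 : (966 / 1000 : ℝ) ^ (n + 1 + 1) = (966 / 1000) ^ (n + 1) * (966 / 1000) := pow_succ _ _
    rw [h5]
    linarith

/-- Explicit bound for the sum of the reciprocals. -/
theorem sum_inv_nice {A : Finset ℤ} (hA : Nice A) : ∑ y ∈ A, 1 / |(y : ℝ)| ≤ 267 / 100 := by
  -- choose `n` large
  obtain ⟨n, hn, hY⟩ : ∃ n : ℕ, 202 ≤ n ∧ ∀ y ∈ A, |y| ≤ ((3 * 2 ^ n : ℕ) : ℤ) := by
    refine ⟨202 + ∑ y ∈ A, y.natAbs, by omega, fun y hy => ?_⟩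
    have h1 : y.natAbs ≤ ∑ y ∈ A, y.natAbs :=
      Finset.single_le_sum (f := fun y : ℤ => y.natAbs) (fun _ _ => Nat.zero_le _) hy
    have h2 : y.natAbs ≤ 2 ^ (202 + ∑ y ∈ A, y.natAbs) := by
      have : 202 + ∑ y ∈ A, y.natAbs < 2 ^ (202 + ∑ y ∈ A, y.natAbs) := Nat.lt_two_pow_self
      omega
    rw [Int.abs_eq_natAbs]
    exact_mod_cast (by omega : y.natAbs ≤ 3 * 2 ^ (202 + ∑ y ∈ A, y.natAbs))
  rw [sum_le_gsum (3 * 2 ^ n) hY]
  have h1 := gsum_tail hA n hn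
  have h2 := cnt_tail hA n hn
  have h3 : (cnt A (3 * 2 ^ n) : ℝ) * (1 / ((3 * 2 ^ n : ℕ) : ℝ)) ≤ 2 * (966 / 1000) ^ n := by
    push_cast
    calc _ ≤ 6 * (1932 / 1000) ^ n * (1 / (3 * (2 : ℝ) ^ n)) := by gcongr
      _ = 2 * ((1932 / 1000) ^ n / (2 : ℝ) ^ n) := by
          field_simp
          ring
      _ = 2 * (966 / 1000) ^ n := by
          rw [← div_pow]
          norm_num
  have h4 : (966 / 1000 : ℝ) ^ (n + 1) = (966 / 1000) ^ n * (966 / 1000) := pow_succ _ _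
  have h5 : (0 : ℝ) < (966 / 1000) ^ n := by positivity
  have h6 : (966 / 1000 : ℝ) ^ 203 ≤ 1 / 1000 := by norm_num
  rw [h4] at h1
  linarith

end Pool.Agent.Lib.MP_edb5be_nt.H13
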