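import Mathlib
import Pool.Agent.Lib.MP_edb5be_nt.H13.Tail
import Pool.Agent.Lib.MP_edb5be_nt.Ident

/-!
# The linear form of a finite union of unknown cycles
-/

set_option autoImplicit false

namespace Pool.Agent.Lib.MP_edb5be_nt.H13

open Function

theorem Nice.ne_zero {A : Finset ℤ} (hA : Nice A) {y : ℤ} (hy : y ∈ A) : y ≠ 0 := by
  rintro rfl
  have := hA.big 0 hy
  simp at this

theorem Nice.sum_comp {A : Finset ℤ} (hA : Nice A) (f : ℤ → ℝ) :
    ∑ y ∈ A, f (T y) = ∑ y ∈ A, f y := by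
  classical
  have himg : A.image T = A := by
    refine Finset.eq_of_subset_of_card_le ?_ ?_
    · intro y hy
      obtain ⟨x, hx, rfl⟩ := Finset.mem_image.1 hy
      exact hA.maps x hx
    · rw [Finset.card_image_of_injOn hA.inj]
  calc ∑ y ∈ A, f (T y) = ∑ y ∈ A.image T, f y := (Finset.sum_image hA.inj).symm
    _ = ∑ y ∈ A, f y := by rw [himg]

theorem lam_set_eq {A : Finset ℤ} (hA : Nice A) :
    (A.card : ℝ) * Real.log 2 - ((A.filter (fun y => y % 2 ≠ 0)).card : ℝ) * Real.log 3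
      = ∑ y ∈ A.filter (fun y => y % 2 ≠ 0), Real.log (1 + 1 / (3 * (y : ℝ))) := by
  have h1 := hA.sum_comp (fun y => Real.log |(y : ℝ)|)
  have h2 : ∑ y ∈ A, Real.log |((T y : ℤ) : ℝ)| = ∑ y ∈ A, (Real.log |(y : ℝ)| - Real.log 2
      + if y % 2 ≠ 0 then Real.log 3 + Real.log (1 + 1 / (3 * (y : ℝ))) else 0) := by
    refine Finset.sum_congr rfl fun y hy => ?_
    by_cases h : y % 2 = 0
    · rw [log_step_even (hA.ne_zero hy) h]
      simp [h]
    · rw [log_step_odd (hA.ne_zero hy) h]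
      simp only [h, ne_eq, not_false_eq_true, if_true]
      ring
  rw [h2, Finset.sum_add_distrib, Finset.sum_sub_distrib, ← Finset.sum_filter,
    Finset.sum_add_distrib, Finset.sum_const, Finset.sum_const, nsmul_eq_mul, nsmul_eq_mul] at h1
  linarith

theorem log_le_key (y : ℤ) (hy : (16777216 : ℤ) ≤ |y|) :
    |Real.log (1 + 1 / (3 * (y : ℝ)))| ≤
      2501 / 10000 * (2 * (1 / |(y : ℝ)| - 1 / |3 * (y : ℝ) + 1|)) := by
  have hy' : (16777216 : ℝ) ≤ |(y : ℝ)| := by exact_mod_cast hy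
  rcases abs_cases (y : ℝ) with ⟨h1, h2⟩ | ⟨h1, h2⟩
  · rw [h1] at hy' ⊢
    set m : ℝ := (y : ℝ) with hm
    have hm0 : 0 < m := by linarith
    rw [abs_of_pos (by positivity : (0 : ℝ) < 3 * m + 1)]
    have h3 : 0 ≤ Real.log (1 + 1 / (3 * m)) := Real.log_nonneg (by
      have : 0 < 1 / (3 * m) := by positivity
      linarith)
    rw [abs_of_nonneg h3]
    have h4 : Real.log (1 + 1 / (3 * m)) ≤ 1 / (3 * m) := by
      have := Real.log_le_sub_one_of_pos (x := 1 + 1 / (3 * m)) (by positivity)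
      linarith
    refine h4.trans ?_
    have h5 : 2501 / 10000 * (2 * (1 / m - 1 / (3 * m + 1)))
        = 2501 / 5000 * (2 * m + 1) / (m * (3 * m + 1)) := by
      field_simp
      ring
    rw [h5, div_le_div_iff₀ (by positivity) (by positivity)]
    nlinarith
  · rw [h1] at hy' ⊢
    set m : ℝ := -(y : ℝ) with hm
    have hym : (y : ℝ) = -m := by rw [hm]; ring
    have hm0 : 0 < m := by linarith
    have h3m : 0 < 3 * m - 1 := by linarith
    have h3m' : 3 * m - 1 ≠ 0 := h3m.ne'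
    rw [hym]
    have e1 : |3 * -m + 1| = 3 * m - 1 := by
      rw [abs_of_neg (by linarith)]
      ring
    rw [e1]
    have e2 : 1 + 1 / (3 * -m) = (3 * m - 1) / (3 * m) := by
      field_simp
      ring
    rw [e2]
    have h3 : Real.log ((3 * m - 1) / (3 * m)) ≤ 0 := by
      apply Real.log_nonpos (by positivity)
      rw [div_le_one (by positivity)]
      linarith
    rw [abs_of_nonpos h3]
    have h4 : - Real.log ((3 * m - 1) / (3 * m)) ≤ 1 / (3 * m - 1) := by
      have h6 := Real.one_sub_inv_le_log_of_pos (x := (3 * m - 1) / (3 * m)) (by positivity)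
      have h7 : 1 - ((3 * m - 1) / (3 * m))⁻¹ = -(1 / (3 * m - 1)) := by
        field_simp
        ring
      linarith
    refine h4.trans ?_
    have h5 : 1 / m - 1 / (3 * m - 1) = (2 * m - 1) / (m * (3 * m - 1)) := by
      rw [div_sub_div _ _ hm0.ne' h3m']
      congr 1
      ring
    have h6 : 2501 / 10000 * (2 * ((2 * m - 1) / (m * (3 * m - 1))))
        = 2501 / 5000 * (2 * m - 1) / (m * (3 * m - 1)) := by ring
    rw [h5, h6, div_le_div_iff₀ h3m (by positivity)]
    nlinarith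

theorem sum_inv_eq {A : Finset ℤ} (hA : Nice A) :
    ∑ y ∈ A, 1 / |(y : ℝ)| =
      ∑ y ∈ A.filter (fun y => y % 2 ≠ 0), 2 * (1 / |(y : ℝ)| - 1 / |3 * (y : ℝ) + 1|) := by
  have h1 := hA.sum_comp (fun y => 1 / |(y : ℝ)|)
  have h2 : ∑ y ∈ A, 1 / |((T y : ℤ) : ℝ)| = ∑ y ∈ A, (2 * (1 / |(y : ℝ)|)
      - if y % 2 ≠ 0 then 2 * (1 / |(y : ℝ)| - 1 / |3 * (y : ℝ) + 1|) else 0) := by
    refine Finset.sum_congr rfl fun y hy => ?_
    have hy0 : (y : ℝ) ≠ 0 := by exact_mod_cast hA.ne_zero hy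
    by_cases h : y % 2 = 0
    · have e1 : (2 : ℝ) * (T y : ℝ) = y := by exact_mod_cast two_mul_T_even h
      have e2 : ((T y : ℤ) : ℝ) = y / 2 := by linarith
      rw [e2, abs_div]
      simp only [h, ne_eq, not_true_eq_false, if_false, sub_zero]
      rw [abs_of_pos (by norm_num : (0 : ℝ) < 2)]
      have : |(y : ℝ)| ≠ 0 := abs_ne_zero.2 hy0
      field_simp
    · have e1 : (2 : ℝ) * (T y : ℝ) = 3 * y + 1 := by exact_mod_cast two_mul_T_odd h
      have e2 : ((T y : ℤ) : ℝ) = (3 * y + 1) / 2 := by linarith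
      rw [e2, abs_div, abs_of_pos (by norm_num : (0 : ℝ) < 2)]
      simp only [h, ne_eq, not_false_eq_true, if_true]
      have e3 : |3 * (y : ℝ) + 1| ≠ 0 := by
        rw [abs_ne_zero]
        have : (3 : ℤ) * y + 1 ≠ 0 := by omega
        exact_mod_cast this
      field_simp
      ring
  rw [h2, Finset.sum_sub_distrib, ← Finset.sum_filter, ← Finset.mul_sum] at h1
  linarith

/-- The main estimate: for a finite union of unknown cycles of one sign. -/
theorem abs_lam_set_le {A : Finset ℤ} (hA : Nice A) :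
    |(A.card : ℝ) * Real.log 2 - ((A.filter (fun y => y % 2 ≠ 0)).card : ℝ) * Real.log 3|
      ≤ 668 / 1000 := by
  rw [lam_set_eq hA]
  calc |∑ y ∈ A.filter (fun y => y % 2 ≠ 0), Real.log (1 + 1 / (3 * (y : ℝ)))|
      ≤ ∑ y ∈ A.filter (fun y => y % 2 ≠ 0), |Real.log (1 + 1 / (3 * (y : ℝ)))| :=
        Finset.abs_sum_le_sum_abs _ _
    _ ≤ ∑ y ∈ A.filter (fun y => y % 2 ≠ 0),
        2501 / 10000 * (2 * (1 / |(y : ℝ)| - 1 / |3 * (y : ℝ) + 1|)) :=
        Finset.sum_le_sum fun y hy => log_le_key y (hA.big y (Finset.mem_filter.1 hy).1)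
    _ = 2501 / 10000 * ∑ y ∈ A, 1 / |(y : ℝ)| := by rw [← Finset.mul_sum, sum_inv_eq hA]
    _ ≤ 2501 / 10000 * (267 / 100) := by
        have := sum_inv_nice hA
        gcongr
    _ ≤ 668 / 1000 := by norm_num

/-- Unions of unknown cycles are nice. -/
theorem nice_of {A : Finset ℤ} (hT : A.image T = A)
    (hsign : (∀ y ∈ A, 0 < y) ∨ (∀ y ∈ A, y < 0)) (hnew : ∀ y ∈ A, y ∉ Dyn.known) : Nice A := by
  classical
  have hmaps : ∀ y ∈ A, T y ∈ A := fun y hy => by
    rw [← hT]
    exact Finset.mem_image_of_mem T hy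
  have hinj : Set.InjOn T A := Finset.injOn_of_card_image_eq (by rw [hT])
  have hne : ∀ y ∈ A, y ≠ 0 := by
    rintro y hy rfl
    rcases hsign with h | h
    · exact lt_irrefl _ (h 0 hy)
    · exact lt_irrefl _ (h 0 hy)
  have hiter : ∀ n : ℕ, ∀ y ∈ A, T^[n] y ∈ A := by
    intro n
    induction n with
    | zero => intro y hy; simpa using hy
    | succ n ih => intro y hy; rw [iterate_succ_apply']; exact hmaps _ (ih y hy)
  have hper : ∀ y ∈ A, ∃ p : ℕ, 0 < p ∧ T^[p] y = y := by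
    intro y hy
    have h1 : Set.MapsTo T (A : Set ℤ) A := fun z hz => hmaps z hz
    obtain ⟨m, n, hmn, heq⟩ : ∃ m n : ℕ, m < n ∧ T^[m] y = T^[n] y := by
      by_contra hcon
      push Not at hcon
      have hinj2 : Function.Injective (fun n : ℕ => (⟨T^[n] y, hiter n y hy⟩ : A)) := by
        intro m n hmn
        simp only [Subtype.mk.injEq] at hmn
        rcases lt_trichotomy m n with h | h | h
        · exact absurd hmn (hcon m n h)
        · exact h
        · exact absurd hmn.symm (hcon n m h)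
      exact not_injective_infinite_finite _ hinj2
    refine ⟨n - m, by omega, ?_⟩
    have h2 : T^[m] (T^[n - m] y) = T^[m] y := by
      rw [← iterate_add_apply, show m + (n - m) = n by omega, heq]
    exact (Set.InjOn.iterate hinj h1 m) (hiter _ y hy) hy h2
  refine ⟨hmaps, hinj, ?_, ?_, hsign⟩
  · intro y hy
    by_contra hcon
    push Not at hcon
    obtain ⟨p, hp0, hp⟩ := hper y hy
    obtain ⟨τ, hτ, hmin⟩ := Finset.exists_min_image (Finset.range p)
      (fun i => |T^[i] y|) ⟨0, Finset.mem_range.mpr hp0⟩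
    have hmin' : ∀ i, |T^[τ] y| ≤ |T^[i] y| := by
      intro i
      have h1 := hmin (i % p) (Finset.mem_range.mpr (Nat.mod_lt _ hp0))
      have h2 : T^[i % p] y = T^[i] y := (show IsPeriodicPt T p y from hp).iterate_mod_apply i
      rwa [h2] at h1
    have hsmall : |T^[τ] y| < 2 ^ 24 := by
      have h1 := hmin' 0
      rw [iterate_zero, id] at h1
      have h2 : |y| < 16777216 := hcon
      norm_num
      exact lt_of_le_of_lt h1 h2
    have h3 := Dyn.mem_known_of_small (hne y hy) hp0 hp (Finset.mem_range.1 hτ).le hmin' hsmall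
    exact hnew y hy h3
  · intro y hy
    obtain ⟨p, hp0, hp⟩ := hper y hy
    exact Dyn.periodic_not_three (hne y hy) hp0 hp

end Pool.Agent.Lib.MP_edb5be_nt.H13
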