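import Mathlib
import Pool.Agent.Lib.MP_edb5be_nt.H13.Count

set_option autoImplicit false

namespace Pool.Agent.Lib.MP_edb5be_nt.H13

open Function

/-- the linear form `p log 2 - k log 3` attached to the cycle of `x` (`p` the number of elements,
`k` the number of odd elements) -/
noncomputable def lam (x : ℤ) : ℝ :=
  (minimalPeriod T x : ℝ) * Real.log 2 - ((par (minimalPeriod T x) x).card : ℝ) * Real.log 3

theorem iterate_ne_zero {x : ℤ} (hx : x ≠ 0) (n : ℕ) : T^[n] x ≠ 0 := by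
  induction n with
  | zero => simpa using hx
  | succ n ih =>
    rw [iterate_succ_apply']
    exact fun h => ih (T_eq_zero.1 h)

theorem log_bound (y : ℤ) (hy : y ≠ 0) :
    |Real.log (1 + 1 / (3 * (y : ℝ)))| ≤ 1 / |(y : ℝ)| := by
  have hy' : (1 : ℝ) ≤ |(y : ℝ)| := by
    have : (1 : ℤ) ≤ |y| := Int.one_le_abs hy
    exact_mod_cast this
  have hy0 : (y : ℝ) ≠ 0 := by exact_mod_cast hy
  set t : ℝ := 1 / (3 * (y : ℝ)) with ht
  have habs : |t| = 1 / (3 * |(y : ℝ)|) := by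
    rw [ht, abs_div, abs_mul]
    norm_num
  have ht3 : |t| ≤ 1 / 3 := by
    rw [habs]
    apply one_div_le_one_div_of_le (by norm_num)
    linarith
  have ht3' := abs_le.1 ht3
  have hpos : 0 < 1 + t := by linarith [ht3'.1]
  have h1 : Real.log (1 + t) ≤ t := by
    have := Real.log_le_sub_one_of_pos hpos
    linarith
  have h2 : 1 - (1 + t)⁻¹ ≤ Real.log (1 + t) := Real.one_sub_inv_le_log_of_pos hpos
  have h3 : -(3 / 2 * |t|) ≤ 1 - (1 + t)⁻¹ := by
    have h4 : 1 - (1 + t)⁻¹ = t / (1 + t) := by field_simp; ring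
    rw [h4, le_div_iff₀ hpos]
    rcases abs_cases t with ⟨h5, h6⟩ | ⟨h5, h6⟩
    · rw [h5]; nlinarith
    · rw [h5]; nlinarith [ht3'.1]
  have h5 : |Real.log (1 + t)| ≤ 3 / 2 * |t| := by
    rw [abs_le]
    refine ⟨by linarith, ?_⟩
    have := le_abs_self t
    have := abs_nonneg t
    linarith
  calc |Real.log (1 + t)| ≤ 3 / 2 * |t| := h5
    _ ≤ 3 * |t| := by linarith [abs_nonneg t]
    _ = 1 / |(y : ℝ)| := by rw [habs]; field_simp

theorem log_step_even {y : ℤ} (hy : y ≠ 0) (h : y % 2 = 0) :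
    Real.log |(T y : ℝ)| = Real.log |(y : ℝ)| - Real.log 2 := by
  have h1 : (2 : ℝ) * (T y : ℝ) = y := by exact_mod_cast two_mul_T_even h
  have hy0 : (y : ℝ) ≠ 0 := by exact_mod_cast hy
  have h2 : (T y : ℝ) = y / 2 := by linarith
  rw [h2, abs_div, Real.log_div (by positivity) (by norm_num)]
  norm_num

theorem log_step_odd {y : ℤ} (hy : y ≠ 0) (h : y % 2 ≠ 0) :
    Real.log |(T y : ℝ)| =
      Real.log |(y : ℝ)| - Real.log 2 + Real.log 3 + Real.log (1 + 1 / (3 * (y : ℝ))) := by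
  have h1 : (2 : ℝ) * (T y : ℝ) = 3 * y + 1 := by exact_mod_cast two_mul_T_odd h
  have hy0 : (y : ℝ) ≠ 0 := by exact_mod_cast hy
  have h2 : (T y : ℝ) = y * (1 / 2) * 3 * (1 + 1 / (3 * (y : ℝ))) := by
    field_simp
    linarith
  have hpos : 0 < 1 + 1 / (3 * (y : ℝ)) := by
    have hy' : (1 : ℝ) ≤ |(y : ℝ)| := by
      have : (1 : ℤ) ≤ |y| := Int.one_le_abs hy
      exact_mod_cast this
    have h3 : |1 / (3 * (y : ℝ))| ≤ 1 / 3 := by
      rw [abs_div, abs_mul]
      norm_num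
      exact inv_le_one_of_one_le₀ hy'
    have := abs_le.1 h3
    linarith [this.1]
  rw [h2, abs_mul, abs_mul, abs_mul, Real.log_mul (by positivity) (by positivity),
    Real.log_mul (by positivity) (by norm_num), Real.log_mul (by positivity) (by norm_num),
    abs_of_pos hpos]
  have h4 : Real.log |(1 / 2 : ℝ)| = - Real.log 2 := by
    rw [abs_of_pos (by norm_num), one_div, Real.log_inv]
  have h5 : Real.log |(3 : ℝ)| = Real.log 3 := by
    rw [abs_of_pos (by norm_num)]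
  rw [h4, h5]
  ring

/-- telescoping identity -/
theorem log_iterate (x : ℤ) (hx : x ≠ 0) (n : ℕ) :
    Real.log |(T^[n] x : ℝ)| = Real.log |(x : ℝ)| - n * Real.log 2
      + ((par n x).card : ℝ) * Real.log 3
      + ∑ j ∈ par n x, Real.log (1 + 1 / (3 * (T^[j] x : ℝ))) := by
  induction n with
  | zero => simp [par_zero]
  | succ n ih =>
    rw [iterate_succ_apply']
    by_cases h : T^[n] x % 2 = 0
    · rw [log_step_even (iterate_ne_zero hx n) h, ih, par_succ_even h]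
      push_cast
      ring
    · rw [log_step_odd (iterate_ne_zero hx n) h, ih, card_par_succ_odd h, par_succ_odd h,
        Finset.sum_insert (by simp [par])]
      push_cast
      ring

theorem lam_eq {x : ℤ} (hx : x ≠ 0) :
    lam x = ∑ j ∈ par (minimalPeriod T x) x, Real.log (1 + 1 / (3 * (T^[j] x : ℝ))) := by
  have h := log_iterate x hx (minimalPeriod T x)
  rw [iterate_minimalPeriod] at h
  rw [lam]
  linarith

theorem abs_lam_le {x : ℤ} (hx : x ≠ 0) :
    |lam x| ≤ ∑ j ∈ Finset.range (minimalPeriod T x), 1 / |(T^[j] x : ℝ)| := by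
  rw [lam_eq hx]
  calc |∑ j ∈ par (minimalPeriod T x) x, Real.log (1 + 1 / (3 * (T^[j] x : ℝ)))|
      ≤ ∑ j ∈ par (minimalPeriod T x) x, |Real.log (1 + 1 / (3 * (T^[j] x : ℝ)))| :=
        Finset.abs_sum_le_sum_abs _ _
    _ ≤ ∑ j ∈ par (minimalPeriod T x) x, 1 / |(T^[j] x : ℝ)| :=
        Finset.sum_le_sum fun j _ => log_bound _ (iterate_ne_zero hx j)
    _ ≤ ∑ j ∈ Finset.range (minimalPeriod T x), 1 / |(T^[j] x : ℝ)| :=
        Finset.sum_le_sum_of_subset_of_nonneg (Finset.filter_subset _ _)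
          fun _ _ _ => by positivity

/-- the orbit of `x` as a finset (for periodic `x`) -/
noncomputable def orb (x : ℤ) : Finset ℤ := (Finset.range (minimalPeriod T x)).image (fun j => T^[j] x)

theorem sum_orb (x : ℤ) : ∑ j ∈ Finset.range (minimalPeriod T x), 1 / |(T^[j] x : ℝ)| =
    ∑ y ∈ orb x, 1 / |(y : ℝ)| := by
  rw [orb, Finset.sum_image]
  intro i hi j hj hij
  have hi' := Finset.mem_range.1 (Finset.mem_coe.1 hi)
  have hj' := Finset.mem_range.1 (Finset.mem_coe.1 hj)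
  exact (iterate_injOn_Iio_minimalPeriod (f := T) (x := x)) hi' hj' hij

theorem mem_orb {x y : ℤ} (hx : x ∈ periodicPts T) :
    y ∈ orb x ↔ ∃ j, T^[j] x = y := by
  constructor
  · intro h
    obtain ⟨j, -, hj⟩ := Finset.mem_image.1 h
    exact ⟨j, hj⟩
  · rintro ⟨j, rfl⟩
    refine Finset.mem_image.2 ⟨j % minimalPeriod T x, ?_, ?_⟩
    · exact Finset.mem_range.2 (Nat.mod_lt _ (minimalPeriod_pos_of_mem_periodicPts hx))
    · exact iterate_mod_minimalPeriod_eq

theorem mem_orb_symm {x y : ℤ} (hx : x ∈ periodicPts T) (h : y ∈ orb x) :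
    y ∈ periodicPts T ∧ x ∈ orb y := by
  obtain ⟨j, rfl⟩ := (mem_orb hx).1 h
  have hy : T^[j] x ∈ periodicPts T := ((bijOn_periodicPts T).iterate j).mapsTo hx
  refine ⟨hy, (mem_orb hy).2 ?_⟩
  set p := minimalPeriod T x with hp
  have hp0 : 0 < p := minimalPeriod_pos_of_mem_periodicPts hx
  refine ⟨p * (j + 1) - j, ?_⟩
  rw [← iterate_add_apply]
  have : p * (j + 1) - j + j = p * (j + 1) := by
    apply Nat.sub_add_cancel
    nlinarith
  rw [this]
  have h2 : IsPeriodicPt T (p * (j + 1)) x := (isPeriodicPt_minimalPeriod T x).mul_const _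
  exact h2

/-- bounded sums of reciprocals of periodic points -/
theorem sum_inv_le : ∃ B : ℝ, ∀ N : ℕ, ∑ x ∈ (perSet (2 ^ N)).erase 0, 1 / |(x : ℝ)| ≤ B := by
  -- parameters `a/b = 5/8`, `z = 5/3`, `c = 1.95`
  have hzc : (1 + (5 / 3 : ℝ)) * (5 / 3 : ℝ) ^ (-(((5 : ℕ) : ℝ) / ((8 : ℕ) : ℝ))) ≤ 39 / 20 := by
    rw [Real.rpow_neg (by norm_num)]
    rw [mul_inv_le_iff₀ (by positivity)]
    refine le_of_pow_le_pow_left₀ (n := 8) (by norm_num) (by positivity) ?_
    rw [mul_pow, ← Real.rpow_mul_natCast (by norm_num)]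
    norm_num
  obtain ⟨C, hC0, hC⟩ := card_perSet_le 5 8 (by norm_num) (by norm_num) (5 / 3) (39 / 20)
    (by norm_num) (by norm_num) hzc
  set S0 : ℝ := ∑ x ∈ (perSet (2 ^ 0)).erase 0, 1 / |(x : ℝ)| with hS0
  have key : ∀ N : ℕ, ∑ x ∈ (perSet (2 ^ N)).erase 0, 1 / |(x : ℝ)|
      ≤ S0 + 2 * C * ∑ n ∈ Finset.range (N + 1), (39 / 40 : ℝ) ^ n := by
    intro N
    induction N with
    | zero => simp only [zero_add, Finset.range_one, Finset.sum_singleton, pow_zero]; linarith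
    | succ N ih =>
      have hsub : (perSet (2 ^ N)).erase 0 ⊆ (perSet (2 ^ (N + 1))).erase 0 := by
        intro x hx
        rw [Finset.mem_erase, mem_perSet] at hx ⊢
        refine ⟨hx.1, hx.2.1.trans ?_, hx.2.2⟩
        exact_mod_cast Nat.pow_le_pow_right (by norm_num) (by omega)
      rw [← Finset.sum_sdiff hsub, Finset.sum_range_succ, mul_add]
      have h1 : ∑ x ∈ (perSet (2 ^ (N + 1))).erase 0 \ (perSet (2 ^ N)).erase 0, 1 / |(x : ℝ)|
          ≤ ∑ _x ∈ (perSet (2 ^ (N + 1))).erase 0 \ (perSet (2 ^ N)).erase 0, 1 / (2 : ℝ) ^ N := by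
        refine Finset.sum_le_sum fun x hx => ?_
        rw [Finset.mem_sdiff, Finset.mem_erase, Finset.mem_erase, mem_perSet, mem_perSet] at hx
        have h2 : ¬ |x| ≤ ((2 ^ N : ℕ) : ℤ) := fun h => hx.2 ⟨hx.1.1, h, hx.1.2.2⟩
        have h3 : (2 : ℝ) ^ N ≤ |(x : ℝ)| := by
          have : ((2 ^ N : ℕ) : ℤ) ≤ |x| := le_of_lt (not_le.1 h2)
          exact_mod_cast this
        exact one_div_le_one_div_of_le (by positivity) h3
      have h4 : (((perSet (2 ^ (N + 1))).erase 0 \ (perSet (2 ^ N)).erase 0).card : ℝ)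
          ≤ C * (39 / 20) ^ (N + 1) := by
        refine le_trans ?_ (hC (N + 1))
        exact_mod_cast Finset.card_le_card
          (Finset.sdiff_subset.trans (Finset.erase_subset _ _))
      rw [Finset.sum_const, nsmul_eq_mul] at h1
      have h5 : (((perSet (2 ^ (N + 1))).erase 0 \ (perSet (2 ^ N)).erase 0).card : ℝ)
          * (1 / (2 : ℝ) ^ N) ≤ 2 * C * (39 / 40) ^ (N + 1) := by
        calc _ ≤ C * (39 / 20) ^ (N + 1) * (1 / (2 : ℝ) ^ N) := by gcongr
          _ = 2 * C * (39 / 40) ^ (N + 1) := by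
            rw [show (39 / 40 : ℝ) = (39 / 20) / 2 by norm_num, div_pow _ (2 : ℝ), pow_succ (2 : ℝ)]
            field_simp
      linarith
  refine ⟨S0 + 2 * C * 40, fun N => (key N).trans ?_⟩
  have hgeom : ∑ n ∈ Finset.range (N + 1), (39 / 40 : ℝ) ^ n ≤ 40 := by
    rw [geom_sum_eq (by norm_num)]
    have : (0 : ℝ) ≤ (39 / 40) ^ (N + 1) := by positivity
    rw [div_le_iff_of_neg (by norm_num)]
    linarith
  have : 0 < 2 * C := by positivity
  nlinarith

/-- the sum of the reciprocals of all nonzero periodic points converges -/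
theorem summable_inv :
    Summable (fun x : {x : ℤ // x ∈ periodicPts T ∧ x ≠ 0} => 1 / |((x : ℤ) : ℝ)|) := by
  obtain ⟨B, hB⟩ := sum_inv_le
  refine summable_of_sum_le (c := B) (fun x => by positivity) fun u => ?_
  classical
  -- all elements of `u` are at most `2^N`
  obtain ⟨N, hN⟩ : ∃ N : ℕ, ∀ x ∈ u, |(x : ℤ)| ≤ (2 ^ N : ℕ) := by
    refine ⟨∑ x ∈ u, (x : ℤ).natAbs, fun x hx => ?_⟩
    have h1 : (x : ℤ).natAbs ≤ ∑ x ∈ u, (x : ℤ).natAbs :=
      Finset.single_le_sum (f := fun x : {x : ℤ // x ∈ periodicPts T ∧ x ≠ 0} => (x : ℤ).natAbs)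
        (fun _ _ => Nat.zero_le _) hx
    have h2 : (x : ℤ).natAbs ≤ 2 ^ (∑ x ∈ u, (x : ℤ).natAbs) :=
      h1.trans Nat.lt_two_pow_self.le
    rw [Int.abs_eq_natAbs]
    exact_mod_cast h2
  have h1 : ∑ x ∈ u, 1 / |((x : ℤ) : ℝ)| = ∑ x ∈ u.map (Function.Embedding.subtype _),
      1 / |(x : ℝ)| := by
    rw [Finset.sum_map]
    rfl
  rw [h1]
  refine le_trans ?_ (hB N)
  refine Finset.sum_le_sum_of_subset_of_nonneg ?_ fun _ _ _ => by positivity
  intro x hx
  rw [Finset.mem_map] at hx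
  obtain ⟨y, hy, rfl⟩ := hx
  rw [Finset.mem_erase, mem_perSet]
  exact ⟨y.2.2, hN y hy, y.2.1⟩

/-- For every `ε > 0` only finitely many periodic points have `|p log 2 - k log 3| ≥ ε`. -/
theorem finite_lam (ε : ℝ) (hε : 0 < ε) :
    {x : ℤ | x ∈ periodicPts T ∧ x ≠ 0 ∧ ε ≤ |lam x|}.Finite := by
  classical
  obtain ⟨s, hs⟩ := summable_iff_vanishing_norm.1 summable_inv ε hε
  have hfin : (⋃ y ∈ s, ((orb (y : ℤ) : Finset ℤ) : Set ℤ)).Finite :=
    s.finite_toSet.biUnion fun y _ => Finset.finite_toSet _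
  refine hfin.subset ?_
  rintro x ⟨hx, hx0, hlam⟩
  by_contra hcon
  have hdisj : ∀ y ∈ s, x ∉ orb (y : ℤ) := by
    intro y hy hxy
    exact hcon (Set.mem_biUnion (x := y) hy hxy)
  -- the orbit of `x` as a finset of the subtype
  have hmem : ∀ y ∈ orb x, y ∈ periodicPts T ∧ y ≠ 0 := by
    intro y hy
    refine ⟨(mem_orb_symm hx hy).1, ?_⟩
    obtain ⟨j, rfl⟩ := (mem_orb hx).1 hy
    exact iterate_ne_zero hx0 j
  set t : Finset {x : ℤ // x ∈ periodicPts T ∧ x ≠ 0} :=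
    (orb x).subtype (fun y => y ∈ periodicPts T ∧ y ≠ 0) with ht
  have hst : Disjoint t s := by
    rw [Finset.disjoint_left]
    intro y hy hys
    have h1 : (y : ℤ) ∈ orb x := by
      rw [ht, Finset.mem_subtype] at hy
      exact hy
    exact hdisj y hys (mem_orb_symm hx h1).2
  have h1 := hs t hst
  have h2 : ∑ y ∈ t, 1 / |((y : ℤ) : ℝ)| = ∑ y ∈ orb x, 1 / |(y : ℝ)| := by
    rw [ht]
    rw [Finset.sum_subtype_of_mem (f := fun y : ℤ => 1 / |(y : ℝ)|) hmem]
  rw [h2, ← sum_orb] at h1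
  have h3 := abs_lam_le hx0
  have h4 := (le_abs_self _).trans (Real.norm_eq_abs _ ▸ h1.le)
  have h5 : (0 : ℝ) ≤ ∑ j ∈ Finset.range (minimalPeriod T x), 1 / |(T^[j] x : ℝ)| :=
    Finset.sum_nonneg fun _ _ => by positivity
  rw [Real.norm_eq_abs, abs_of_nonneg h5] at h1
  linarith

end Pool.Agent.Lib.MP_edb5be_nt.H13
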