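import Mathlib
import Pool.Agent.Lib.MP_edb5be_nt.H13.Lambda

set_option autoImplicit false

namespace Pool.Agent.Lib.MP_edb5be_nt.H13

open Function

/-- `j log 2 ≠ k log 3` quantitatively: for fixed `j ≥ 1` the distance is bounded below. -/
theorem exists_delta_single (j : ℕ) (hj : 1 ≤ j) :
    ∃ δ : ℝ, 0 < δ ∧ ∀ k : ℤ, δ ≤ |(j : ℝ) * Real.log 2 - (k : ℝ) * Real.log 3| := by
  have hl3 : 0 < Real.log 3 := Real.log_pos (by norm_num)
  set α : ℝ := (j : ℝ) * Real.log 2 / Real.log 3 with hα
  have hmul : α * Real.log 3 = (j : ℝ) * Real.log 2 := by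
    rw [hα]; field_simp
  have hne : ∀ k : ℤ, α ≠ (k : ℝ) := by
    intro k hk
    have h1 : (j : ℝ) * Real.log 2 = (k : ℝ) * Real.log 3 := by rw [← hmul, hk]
    have hk0 : 0 < k := by
      have h2 : 0 < (j : ℝ) * Real.log 2 := by
        have : (0 : ℝ) < j := by exact_mod_cast hj
        have := Real.log_pos (by norm_num : (1 : ℝ) < 2)
        positivity
      rw [h1] at h2
      have h3 : (0 : ℝ) < (k : ℝ) := by
        by_contra hneg
        have := mul_nonpos_of_nonpos_of_nonneg (not_lt.1 hneg) hl3.le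
        linarith
      exact_mod_cast h3
    obtain ⟨m, rfl⟩ := Int.eq_ofNat_of_zero_le hk0.le
    have h3 : Real.log ((2 : ℝ) ^ j) = Real.log ((3 : ℝ) ^ m) := by
      rw [Real.log_pow, Real.log_pow]
      exact_mod_cast h1
    have h4 : (2 : ℝ) ^ j = 3 ^ m :=
      Real.log_injOn_pos (Set.mem_Ioi.2 (by positivity)) (Set.mem_Ioi.2 (by positivity)) h3
    have h5 : (2 : ℕ) ^ j = 3 ^ m := by exact_mod_cast h4
    have h6 : 2 ∣ 3 ^ m := by
      rw [← h5]
      exact dvd_pow_self 2 (by omega)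
    have := Nat.Prime.dvd_of_dvd_pow Nat.prime_two h6
    omega
  have hpos : 0 < |α - round α| := abs_pos.2 (sub_ne_zero.2 (hne _))
  refine ⟨|α - round α| * Real.log 3, by positivity, fun k => ?_⟩
  have h1 : (j : ℝ) * Real.log 2 - (k : ℝ) * Real.log 3 = (α - k) * Real.log 3 := by
    rw [sub_mul, hmul]
  rw [h1, abs_mul, abs_of_pos hl3]
  exact mul_le_mul_of_nonneg_right (round_le α k) hl3.le

theorem exists_delta (J : ℕ) :
    ∃ δ : ℝ, 0 < δ ∧ ∀ j : ℕ, 1 ≤ j → j ≤ J → ∀ k : ℤ,
      δ ≤ |(j : ℝ) * Real.log 2 - (k : ℝ) * Real.log 3| := by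
  induction J with
  | zero => exact ⟨1, one_pos, fun j h1 h2 => by omega⟩
  | succ J ih =>
    obtain ⟨δ, hδ, h⟩ := ih
    obtain ⟨δ', hδ', h'⟩ := exists_delta_single (J + 1) (by omega)
    refine ⟨min δ δ', lt_min hδ hδ', fun j h1 h2 k => ?_⟩
    rcases Nat.lt_or_ge j (J + 1) with h3 | h3
    · exact (min_le_left _ _).trans (h j h1 (by omega) k)
    · have : j = J + 1 := by omega
      subst this
      exact (min_le_right _ _).trans (h' k)

/-- the set of lengths of cycles of `T` -/
def lengths : Set ℕ := {p | 0 < p ∧ ∃ x : ℤ, minimalPeriod T x = p}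

/-- All but finitely many cycle lengths are at distance more than `J` from each other. -/
theorem gaps (J : ℕ) : ∃ E : Finset ℕ, ∀ p ∈ lengths, ∀ p' ∈ lengths, p ∉ E → p' ∉ E → p < p' →
    J < p' - p := by
  classical
  obtain ⟨δ, hδ, h⟩ := exists_delta J
  have hfin := finite_lam (δ / 2) (by positivity)
  refine ⟨insert 1 (hfin.toFinset.image (minimalPeriod T)), ?_⟩
  rintro p ⟨hp, x, hx⟩ p' ⟨hp', x', hx'⟩ hpE hpE' hlt
  have hxP : x ∈ periodicPts T := minimalPeriod_pos_iff_mem_periodicPts.1 (by rw [hx]; exact hp)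
  have hxP' : x' ∈ periodicPts T := minimalPeriod_pos_iff_mem_periodicPts.1 (by rw [hx']; exact hp')
  have hzero : minimalPeriod T 0 = 1 := by
    rw [minimalPeriod_eq_one_iff_isFixedPt]
    rfl
  have small : ∀ q : ℕ, ∀ y : ℤ, y ∈ periodicPts T → minimalPeriod T y = q →
      q ∉ insert 1 (hfin.toFinset.image (minimalPeriod T)) → |lam y| < δ / 2 := by
    intro q y hy hq hqE
    rw [Finset.mem_insert, not_or] at hqE
    have hy0 : y ≠ 0 := by
      rintro rfl
      exact hqE.1 (hq ▸ hzero)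
    by_contra hcon
    push Not at hcon
    apply hqE.2
    rw [Finset.mem_image]
    refine ⟨y, ?_, hq⟩
    rw [Set.Finite.mem_toFinset]
    exact ⟨hy, hy0, hcon⟩
  have h1 := small p x hxP hx hpE
  have h2 := small p' x' hxP' hx' hpE'
  by_contra hcon
  push Not at hcon
  have h3 := h (p' - p) (by omega) hcon
    (((par (minimalPeriod T x') x').card : ℤ) - (par (minimalPeriod T x) x).card)
  have h4 : ((p' - p : ℕ) : ℝ) * Real.log 2
      - ((((par (minimalPeriod T x') x').card : ℤ) - (par (minimalPeriod T x) x).card : ℤ) : ℝ)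
        * Real.log 3 = lam x' - lam x := by
    rw [lam, lam, hx, hx', Nat.cast_sub hlt.le]
    push_cast
    ring
  rw [h4] at h3
  have h5 : |lam x' - lam x| ≤ |lam x'| + |lam x| := abs_sub _ _
  linarith

open scoped Classical in
theorem count_le (J : ℕ) : ∃ K : ℕ, ∀ P : ℕ,
    ((Finset.range (P + 1)).filter (fun p => p ∈ lengths)).card ≤ K + (P / (J + 1) + 1) := by
  obtain ⟨E, hE⟩ := gaps J
  refine ⟨E.card, fun P => ?_⟩
  have h1 : (Finset.range (P + 1)).filter (fun p => p ∈ lengths) ⊆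
      E ∪ ((Finset.range (P + 1)).filter (fun p => p ∈ lengths ∧ p ∉ E)) := by
    intro p hp
    rw [Finset.mem_filter] at hp
    rw [Finset.mem_union, Finset.mem_filter]
    by_cases h : p ∈ E
    · exact Or.inl h
    · exact Or.inr ⟨hp.1, hp.2, h⟩
  have h2 : ((Finset.range (P + 1)).filter (fun p => p ∈ lengths ∧ p ∉ E)).card
      ≤ (Finset.range (P / (J + 1) + 1)).card := by
    refine Finset.card_le_card_of_injOn (fun p => p / (J + 1)) ?_ ?_
    · intro p hp
      simp only [Finset.coe_filter, Set.mem_ofPred_eq, Finset.mem_range] at hp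
      simp only [Finset.coe_range, Set.mem_Iio]
      exact Nat.lt_succ_of_le (Nat.div_le_div_right (by omega))
    · intro p hp p' hp' hpp
      simp only [Finset.coe_filter, Set.mem_ofPred_eq, Finset.mem_range] at hp hp'
      simp only at hpp
      rcases lt_trichotomy p p' with hlt | heq | hlt
      · exfalso
        have := hE p hp.2.1 p' hp'.2.1 hp.2.2 hp'.2.2 hlt
        have h3 := Nat.div_add_mod p (J + 1)
        have h4 := Nat.div_add_mod p' (J + 1)
        have h5 := Nat.mod_lt p (Nat.succ_pos J)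
        have h6 := Nat.mod_lt p' (Nat.succ_pos J)
        rw [hpp] at h3
        simp only [Nat.succ_eq_add_one] at h5 h6
        omega
      · exact heq
      · exfalso
        have := hE p' hp'.2.1 p hp.2.1 hp'.2.2 hp.2.2 hlt
        have h3 := Nat.div_add_mod p (J + 1)
        have h4 := Nat.div_add_mod p' (J + 1)
        have h5 := Nat.mod_lt p (Nat.succ_pos J)
        have h6 := Nat.mod_lt p' (Nat.succ_pos J)
        rw [hpp] at h3
        simp only [Nat.succ_eq_add_one] at h5 h6
        omega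
  calc _ ≤ _ := Finset.card_le_card h1
    _ ≤ _ := Finset.card_union_le _ _
    _ ≤ _ := by rw [Finset.card_range] at h2; omega

open scoped Classical in
/-- The set of cycle lengths has natural density zero. -/
theorem density_zero : Filter.Tendsto
    (fun P : ℕ => (((Finset.range (P + 1)).filter (fun p => p ∈ lengths)).card : ℝ) / (P : ℝ))
    Filter.atTop (nhds 0) := by
  rw [Metric.tendsto_atTop]
  intro ε hε
  obtain ⟨J, hJ⟩ := exists_nat_gt (2 / ε)
  obtain ⟨K, hK⟩ := count_le J
  obtain ⟨N, hN⟩ := exists_nat_gt (2 * (K + 1) / ε)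
  refine ⟨N + 1, fun P hP => ?_⟩
  have hP0 : (0 : ℝ) < P := by
    have : 0 < P := by omega
    exact_mod_cast this
  rw [Real.dist_eq, sub_zero, abs_of_nonneg (by positivity), div_lt_iff₀ hP0]
  have h1 : ((((Finset.range (P + 1)).filter (fun p => p ∈ lengths)).card : ℕ) : ℝ)
      ≤ K + ((P / (J + 1) : ℕ) + 1) := by exact_mod_cast hK P
  have h2 : ((P / (J + 1) : ℕ) : ℝ) ≤ P / (J + 1) := by
    have := @Nat.cast_div_le ℝ _ _ _ P (J + 1)
    push_cast at this
    exact this
  have h3 : (P : ℝ) / (J + 1) < ε / 2 * P := by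
    rw [div_lt_iff₀ (by positivity)]
    have h4 : 2 < (J : ℝ) * ε := by
      rwa [div_lt_iff₀ hε] at hJ
    nlinarith
  have h5 : (K : ℝ) + 1 < ε / 2 * P := by
    have h6 : 2 * ((K : ℝ) + 1) < N * ε := by
      rwa [div_lt_iff₀ hε] at hN
    have h7 : (N : ℝ) ≤ P := by
      have : N ≤ P := by omega
      exact_mod_cast this
    nlinarith
  linarith

end Pool.Agent.Lib.MP_edb5be_nt.H13
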