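import Mathlib
import Pool.Agent.Lib.MP_edb5be_nt.H13.Lambda

/-!
# Explicit counting of the elements of unions of unknown cycles: the recursion
-/

set_option autoImplicit false

namespace Pool.Agent.Lib.MP_edb5be_nt.H13

open Function

/-- A finite union of unknown cycles of one sign: a finite set on which `T` acts injectively, whose
elements are of absolute value at least `2^24`, are not divisible by `3` and have one sign. -/
structure Nice (A : Finset ℤ) : Prop where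
  maps : ∀ y ∈ A, T y ∈ A
  inj : Set.InjOn T A
  big : ∀ y ∈ A, (16777216 : ℤ) ≤ |y|
  three : ∀ y ∈ A, y % 3 ≠ 0
  sign : (∀ y ∈ A, 0 < y) ∨ (∀ y ∈ A, y < 0)

/-- number of elements of absolute value at most `Y` -/
def cnt (A : Finset ℤ) (Y : ℕ) : ℕ := (A.filter fun y => |y| ≤ (Y : ℤ)).card

/-- number of pairs (word of length `N`, `1 ≤ j ≤ J`) which may stay above `Y1` -/
def bad (N J Y1 : ℕ) : ℕ :=
  (((Finset.range N).powerset ×ˢ Finset.Icc 1 J).filter
    (fun q => 2 ^ q.1.card * (Y1 + 2) ≤ 2 ^ q.1.card * 3 ^ (q.1.card + 1) * q.2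
      + 3 ^ q.1.card)).card

theorem Nice.iterate_mem {A : Finset ℤ} (hA : Nice A) (n : ℕ) : ∀ y ∈ A, T^[n] y ∈ A := by
  induction n with
  | zero => intro y hy; simpa using hy
  | succ n ih => intro y hy; rw [iterate_succ_apply']; exact hA.maps _ (ih y hy)

theorem Nice.iterate_inj {A : Finset ℤ} (hA : Nice A) (n : ℕ) : Set.InjOn (T^[n]) A := by
  have hm : Set.MapsTo T (A : Set ℤ) A := fun y hy => hA.maps y hy
  exact Set.InjOn.iterate hA.inj hm n

theorem eq_of_abs_sub_lt {a b m : ℤ} (h1 : m ∣ a - b) (h2 : |a - b| < m) : a = b := by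
  have := Int.eq_zero_of_abs_lt_dvd h1 h2
  omega

/-- The basic recursion. -/
theorem cnt_rec {A : Finset ℤ} (hA : Nice A) (N J Y1 : ℕ) :
    cnt A (3 * J * 2 ^ N) ≤ cnt A Y1 + 2 * bad N J Y1 := by
  classical
  set B := A.filter fun y => |y| ≤ ((3 * J * 2 ^ N : ℕ) : ℤ) with hB
  have hsplit := Finset.card_filter_add_card_filter_not (s := B) (fun y => |T^[N] y| ≤ (Y1 : ℤ))
  have h1 : (B.filter fun y => |T^[N] y| ≤ (Y1 : ℤ)).card ≤ cnt A Y1 := by
    refine Finset.card_le_card_of_injOn (T^[N]) ?_ ?_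
    · intro y hy
      rw [Finset.mem_coe, Finset.mem_filter, hB, Finset.mem_filter] at hy
      rw [Finset.mem_coe, Finset.mem_filter]
      exact ⟨hA.iterate_mem N y hy.1.1, hy.2⟩
    · refine (hA.iterate_inj N).mono fun y hy => ?_
      rw [Finset.mem_coe, Finset.mem_filter, hB, Finset.mem_filter] at hy
      exact hy.1.1
  have hm0 : (0 : ℤ) < 3 * 2 ^ N := by positivity
  have h2 : (B.filter fun y => ¬ |T^[N] y| ≤ (Y1 : ℤ)).card ≤ 2 * bad N J Y1 := by
    rw [bad]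
    -- `j(y)` is the ceiling of `|y| / (3 * 2^N)`
    refine Finset.card_le_mul_card_image_of_maps_to
      (f := fun y => (par N y, ((|y| - 1) / (3 * 2 ^ N)).toNat + 1)) ?_ 2 ?_
    · intro y hy
      rw [Finset.mem_filter, hB, Finset.mem_filter] at hy
      obtain ⟨⟨hyA, hyJ⟩, hyY⟩ := hy
      have hbig := hA.big y hyA
      have hq0 : 0 ≤ (|y| - 1) / (3 * 2 ^ N) := Int.ediv_nonneg (by omega) hm0.le
      obtain ⟨q, hq⟩ := Int.eq_ofNat_of_zero_le hq0
      have hqn : ((|y| - 1) / (3 * 2 ^ N)).toNat = q := by rw [hq]; simp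
      have hlt : |y| - 1 < ((q : ℤ) + 1) * (3 * 2 ^ N) := by
        have := Int.lt_ediv_add_one_mul_self (|y| - 1) hm0
        rwa [hq] at this
      have hle : (q : ℤ) * (3 * 2 ^ N) ≤ |y| - 1 := by
        have := Int.ediv_mul_le (|y| - 1) hm0.ne'
        rwa [hq] at this
      have hqJ : q + 1 ≤ J := by
        have h3 : (q : ℤ) * (3 * 2 ^ N) < J * (3 * 2 ^ N) := by
          have h4 : ((3 * J * 2 ^ N : ℕ) : ℤ) = J * (3 * 2 ^ N) := by push_cast; ring
          rw [h4] at hyJ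
          linarith
        have h5 : (q : ℤ) < J := lt_of_mul_lt_mul_right h3 hm0.le
        omega
      rw [Finset.mem_filter, Finset.mem_product]
      refine ⟨⟨?_, ?_⟩, ?_⟩
      · rw [Finset.mem_powerset]
        exact Finset.filter_subset _ _
      · rw [Finset.mem_Icc]
        simp only [hqn]
        omega
      · simp only [hqn]
        have h3 := iterate_bound N y
        set k := (par N y).card with hk
        have h4 : |y| ≤ ((q : ℤ) + 1) * (3 * 2 ^ N) := by omega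
        have h5 : (Y1 : ℤ) + 2 ≤ |T^[N] y| + 1 := by omega
        have h6 : (2 : ℤ) ^ N * (2 ^ k * ((Y1 : ℤ) + 2)) ≤
            2 ^ N * (2 ^ k * 3 ^ (k + 1) * (q + 1) + 3 ^ k) := by
          calc (2 : ℤ) ^ N * (2 ^ k * ((Y1 : ℤ) + 2))
              ≤ 2 ^ N * (2 ^ k * (|T^[N] y| + 1)) := by gcongr
            _ = 2 ^ k * (2 ^ N * (|T^[N] y| + 1)) := by ring
            _ ≤ 3 ^ k * (2 ^ k * |y| + 2 ^ N) := h3
            _ ≤ 3 ^ k * (2 ^ k * (((q : ℤ) + 1) * (3 * 2 ^ N)) + 2 ^ N) := by gcongr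
            _ = _ := by ring
        have h7 : (2 : ℤ) ^ k * ((Y1 : ℤ) + 2) ≤ 2 ^ k * 3 ^ (k + 1) * (q + 1) + 3 ^ k :=
          le_of_mul_le_mul_left h6 (by positivity)
        exact_mod_cast h7
    · rintro ⟨s, j⟩ -
      -- the fiber has at most two elements
      have hmaps : ∀ y ∈ (B.filter fun y => ¬ |T^[N] y| ≤ (Y1 : ℤ)).filter
          (fun y => (par N y, ((|y| - 1) / (3 * 2 ^ N)).toNat + 1) = (s, j)),
          y % 3 ∈ ({1, 2} : Finset ℤ) := by
        intro y hy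
        rw [Finset.mem_filter, Finset.mem_filter, hB, Finset.mem_filter] at hy
        have h3 := hA.three y hy.1.1.1
        rw [Finset.mem_insert, Finset.mem_singleton]
        omega
      have hinj : Set.InjOn (fun y : ℤ => y % 3) ((B.filter fun y => ¬ |T^[N] y| ≤ (Y1 : ℤ)).filter
          (fun y => (par N y, ((|y| - 1) / (3 * 2 ^ N)).toNat + 1) = (s, j))) := by
        intro y hy y' hy' hyy
        rw [Finset.mem_coe, Finset.mem_filter, Finset.mem_filter, hB, Finset.mem_filter] at hy hy'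
        obtain ⟨⟨⟨hyA, -⟩, -⟩, hyE⟩ := hy
        obtain ⟨⟨⟨hyA', -⟩, -⟩, hyE'⟩ := hy'
        simp only at hyy
        rw [Prod.mk.injEq] at hyE hyE'
        have hbig := hA.big y hyA
        have hbig' := hA.big y' hyA'
        have hd1 : (2 : ℤ) ^ N ∣ y - y' := dvd_of_par_eq N y y' (by rw [hyE.1, hyE'.1])
        have hd2 : (3 : ℤ) ∣ y - y' := Int.dvd_of_emod_eq_zero (by omega)
        have hcop : IsCoprime (3 : ℤ) (2 ^ N) := by
          apply IsCoprime.pow_right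
          norm_num
        have hd3 : (3 : ℤ) * 2 ^ N ∣ y - y' := hcop.mul_dvd hd2 hd1
        have hq0 : 0 ≤ (|y| - 1) / (3 * 2 ^ N) := Int.ediv_nonneg (by omega) hm0.le
        have hq0' : 0 ≤ (|y'| - 1) / (3 * 2 ^ N) := Int.ediv_nonneg (by omega) hm0.le
        have hqq : (|y| - 1) / (3 * 2 ^ N) = (|y'| - 1) / (3 * 2 ^ N) := by omega
        have a1 := Int.lt_ediv_add_one_mul_self (|y| - 1) hm0
        have a2 := Int.ediv_mul_le (|y| - 1) hm0.ne'
        have b1 := Int.lt_ediv_add_one_mul_self (|y'| - 1) hm0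
        have b2 := Int.ediv_mul_le (|y'| - 1) hm0.ne'
        rw [← hqq] at b1 b2
        rw [add_mul, one_mul] at a1 b1
        generalize (|y| - 1) / (3 * 2 ^ N) = Q at a1 a2 b1 b2
        refine eq_of_abs_sub_lt hd3 ?_
        rcases hA.sign with hs | hs
        · have e1 := hs y hyA
          have e2 := hs y' hyA'
          rw [abs_of_pos e1] at a1 a2
          rw [abs_of_pos e2] at b1 b2
          rw [abs_lt]
          constructor <;> linarith
        · have e1 := hs y hyA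
          have e2 := hs y' hyA'
          rw [abs_of_neg e1] at a1 a2
          rw [abs_of_neg e2] at b1 b2
          rw [abs_lt]
          constructor <;> linarith
      calc _ ≤ ({1, 2} : Finset ℤ).card :=
            Finset.card_le_card_of_injOn (fun y : ℤ => y % 3) hmaps hinj
        _ = 2 := by decide
  have h3 : cnt A (3 * J * 2 ^ N) = B.card := rfl
  omega

/-- `∑ (1/|y| - 1/Y)` over the elements with `|y| ≤ Y` -/
noncomputable def gsum (A : Finset ℤ) (Y : ℕ) : ℝ :=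
  ∑ y ∈ A.filter (fun y => |y| ≤ (Y : ℤ)), (1 / |(y : ℝ)| - 1 / (Y : ℝ))

theorem gsum_step {A : Finset ℤ} (Y Y' : ℕ) (hY : 0 < Y) (hYY : Y ≤ Y') :
    gsum A Y' ≤ gsum A Y + (cnt A Y' : ℝ) * (1 / (Y : ℝ) - 1 / (Y' : ℝ)) := by
  classical
  have hY0 : (0 : ℝ) < Y := by exact_mod_cast hY
  have hYY' : (Y : ℝ) ≤ Y' := by exact_mod_cast hYY
  have hsub : A.filter (fun y => |y| ≤ (Y : ℤ)) ⊆ A.filter (fun y => |y| ≤ (Y' : ℤ)) := by
    intro y hy
    rw [Finset.mem_filter] at hy ⊢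
    exact ⟨hy.1, hy.2.trans (by exact_mod_cast hYY)⟩
  have hinv : 1 / (Y' : ℝ) ≤ 1 / Y := one_div_le_one_div_of_le hY0 hYY'
  rw [gsum, gsum, cnt, ← Finset.sum_sdiff hsub]
  have h1 : ∑ y ∈ A.filter (fun y => |y| ≤ (Y' : ℤ)) \ A.filter (fun y => |y| ≤ (Y : ℤ)),
      (1 / |(y : ℝ)| - 1 / (Y' : ℝ))
      ≤ ∑ _y ∈ A.filter (fun y => |y| ≤ (Y' : ℤ)) \ A.filter (fun y => |y| ≤ (Y : ℤ)),
      (1 / (Y : ℝ) - 1 / (Y' : ℝ)) := by
    refine Finset.sum_le_sum fun y hy => ?_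
    rw [Finset.mem_sdiff, Finset.mem_filter, Finset.mem_filter] at hy
    have h2 : ¬ |y| ≤ (Y : ℤ) := fun h => hy.2 ⟨hy.1.1, h⟩
    have h3 : (Y : ℝ) ≤ |(y : ℝ)| := by
      have : (Y : ℤ) ≤ |y| := le_of_lt (not_le.1 h2)
      exact_mod_cast this
    have := one_div_le_one_div_of_le hY0 h3
    linarith
  have h2 : ∑ y ∈ A.filter (fun y => |y| ≤ (Y : ℤ)), (1 / |(y : ℝ)| - 1 / (Y' : ℝ))
      = ∑ y ∈ A.filter (fun y => |y| ≤ (Y : ℤ)), (1 / |(y : ℝ)| - 1 / (Y : ℝ))
        + ∑ _y ∈ A.filter (fun y => |y| ≤ (Y : ℤ)), (1 / (Y : ℝ) - 1 / (Y' : ℝ)) := by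
    rw [← Finset.sum_add_distrib]
    exact Finset.sum_congr rfl fun y _ => by ring
  rw [h2]
  rw [Finset.sum_const, nsmul_eq_mul] at h1 ⊢
  have h3 : ((A.filter (fun y => |y| ≤ (Y' : ℤ)) \ A.filter (fun y => |y| ≤ (Y : ℤ))).card : ℝ)
      + ((A.filter (fun y => |y| ≤ (Y : ℤ))).card : ℝ)
      = ((A.filter (fun y => |y| ≤ (Y' : ℤ))).card : ℝ) := by
    exact_mod_cast Finset.card_sdiff_add_card_eq_card hsub
  rw [← h3]
  linarith [add_mul ((A.filter (fun y => |y| ≤ (Y' : ℤ)) \ A.filter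
    (fun y => |y| ≤ (Y : ℤ))).card : ℝ) ((A.filter (fun y => |y| ≤ (Y : ℤ))).card : ℝ)
    (1 / (Y : ℝ) - 1 / (Y' : ℝ))]

theorem sum_le_gsum {A : Finset ℤ} (Y : ℕ) (hY : ∀ y ∈ A, |y| ≤ (Y : ℤ)) :
    ∑ y ∈ A, 1 / |(y : ℝ)| = gsum A Y + (cnt A Y : ℝ) * (1 / (Y : ℝ)) := by
  have h1 : A.filter (fun y => |y| ≤ (Y : ℤ)) = A := Finset.filter_true_of_mem hY
  rw [gsum, cnt, h1, Finset.sum_sub_distrib, Finset.sum_const, nsmul_eq_mul]
  ring

end Pool.Agent.Lib.MP_edb5be_nt.H13
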