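import Mathlib
import Pool.Agent.Lib.MP_edb5be_nt.H13.Lengths
import Pool.Agent.Lib.MP_edb5be_nt.LogForm

set_option autoImplicit false

namespace Pool.Agent.Lib.MP_edb5be_nt.H13

open Function

theorem minimalPeriod_of_mem_orb {x y : ℤ} (hx : x ∈ periodicPts T) (h : y ∈ orb x) :
    minimalPeriod T y = minimalPeriod T x := by
  obtain ⟨j, rfl⟩ := (mem_orb hx).1 h
  exact minimalPeriod_apply_iterate hx j

/-- cycles of different lengths contribute a bounded total amount `∑ |p log 2 - k log 3|` -/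
theorem exists_sum_bound : ∃ S : ℝ, 0 < S ∧ ∀ (F : Finset ℕ) (f : ℕ → ℤ),
    (∀ p ∈ F, 0 < p ∧ f p ≠ 0 ∧ minimalPeriod T (f p) = p) → ∑ p ∈ F, |lam (f p)| ≤ S := by
  classical
  have hsum := summable_inv
  refine ⟨(∑' x : {x : ℤ // x ∈ periodicPts T ∧ x ≠ 0}, 1 / |((x : ℤ) : ℝ)|) + 1, ?_, ?_⟩
  · have : 0 ≤ ∑' x : {x : ℤ // x ∈ periodicPts T ∧ x ≠ 0}, 1 / |((x : ℤ) : ℝ)| :=
      tsum_nonneg fun x => by positivity
    linarith
  intro F f hf
  have hper : ∀ p ∈ F, f p ∈ periodicPts T := fun p hp =>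
    minimalPeriod_pos_iff_mem_periodicPts.1 (by rw [(hf p hp).2.2]; exact (hf p hp).1)
  have hdisj : (F : Set ℕ).PairwiseDisjoint (fun p => orb (f p)) := by
    intro p hp p' hp' hne
    rw [Function.onFun, Finset.disjoint_left]
    intro y hy hy'
    apply hne
    rw [← (hf p hp).2.2, ← (hf p' hp').2.2, ← minimalPeriod_of_mem_orb (hper p hp) hy,
      ← minimalPeriod_of_mem_orb (hper p' hp') hy']
  have h1 : ∑ p ∈ F, |lam (f p)| ≤ ∑ y ∈ F.biUnion (fun p => orb (f p)), 1 / |(y : ℝ)| := by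
    rw [Finset.sum_biUnion hdisj]
    refine Finset.sum_le_sum fun p hp => ?_
    rw [← sum_orb]
    exact abs_lam_le (hf p hp).2.1
  have hmem : ∀ y ∈ F.biUnion (fun p => orb (f p)), y ∈ periodicPts T ∧ y ≠ 0 := by
    intro y hy
    obtain ⟨p, hp, hy⟩ := Finset.mem_biUnion.1 hy
    refine ⟨(mem_orb_symm (hper p hp) hy).1, ?_⟩
    obtain ⟨j, rfl⟩ := (mem_orb (hper p hp)).1 hy
    exact iterate_ne_zero (hf p hp).2.1 j
  have h2 : ∑ y ∈ F.biUnion (fun p => orb (f p)), 1 / |(y : ℝ)|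
      = ∑ y ∈ (F.biUnion (fun p => orb (f p))).subtype (fun y => y ∈ periodicPts T ∧ y ≠ 0),
        1 / |((y : ℤ) : ℝ)| := by
    rw [Finset.sum_subtype_of_mem (f := fun y : ℤ => 1 / |(y : ℝ)|) hmem]
  rw [h2] at h1
  refine h1.trans ?_
  have h3 := hsum.sum_le_tsum
    ((F.biUnion (fun p => orb (f p))).subtype (fun y => y ∈ periodicPts T ∧ y ≠ 0))
    (fun x _ => by positivity)
  linarith

/-- Counting multiples of `α` close to integers. -/
theorem card_close_le (α : ℝ) (r : ℚ) (P Q : ℕ) (hPQ : P ≤ Q)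
    (hr : |α - r| ≤ 1 / ((Q + 1) * r.den)) (ε : ℝ) (hε : 0 ≤ ε) (F : Finset ℕ)
    (hF : ∀ p ∈ F, p ≤ P ∧ ∃ k : ℤ, |(p : ℝ) * α - k| < ε) :
    (F.card : ℝ) ≤ ((P : ℝ) / r.den + 1) * (2 * ε * r.den + 3) := by
  classical
  set q : ℕ := r.den with hq
  have hq0 : 0 < q := r.den_pos
  have hq0' : (0 : ℝ) < q := by exact_mod_cast hq0
  choose! k hk using fun p hp => (hF p hp).2
  set M : ℕ := ⌊ε * q + 1⌋₊ with hM
  have hMle : (M : ℝ) ≤ ε * q + 1 := Nat.floor_le (by positivity)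
  -- the integers `m_p`
  set m : ℕ → ℤ := fun p => p * r.num - q * k p with hm
  have hm1 : ∀ p ∈ F, |(m p : ℝ)| ≤ ε * q + 1 := by
    intro p hp
    have h1 := hk p hp
    have h2 : (m p : ℝ) = q * ((p : ℝ) * α - k p) - q * p * (α - r) := by
      rw [hm]
      push_cast
      have h3 : (r : ℝ) * q = r.num := by
        rw [hq]
        exact_mod_cast Rat.mul_den_eq_num r
      linear_combination (-(p : ℝ)) * h3
    have h4 : |(q : ℝ) * ((p : ℝ) * α - k p)| ≤ q * ε := by
      rw [abs_mul, abs_of_pos hq0']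
      exact mul_le_mul_of_nonneg_left h1.le hq0'.le
    have h5 : |(q : ℝ) * p * (α - r)| ≤ 1 := by
      rw [abs_mul, abs_of_nonneg (by positivity)]
      have hpP : (p : ℝ) ≤ P := by exact_mod_cast (hF p hp).1
      have hPQ' : (P : ℝ) ≤ Q := by exact_mod_cast hPQ
      calc (q : ℝ) * p * |α - r| ≤ q * p * (1 / ((Q + 1) * q)) := by gcongr
        _ = p / (Q + 1) := by field_simp
        _ ≤ 1 := by
          rw [div_le_one (by positivity)]
          linarith
    rw [h2]
    calc |(q : ℝ) * ((p : ℝ) * α - k p) - q * p * (α - r)|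
        ≤ |(q : ℝ) * ((p : ℝ) * α - k p)| + |(q : ℝ) * p * (α - r)| := abs_sub _ _
      _ ≤ q * ε + 1 := add_le_add h4 h5
      _ = ε * q + 1 := by ring
  have hm2 : ∀ p ∈ F, m p ∈ Finset.Icc (-(M : ℤ)) M := by
    intro p hp
    have h1 := hm1 p hp
    have h2 : (m p).natAbs ≤ M := by
      rw [hM]
      apply Nat.le_floor
      rw [Nat.cast_natAbs, Int.cast_abs]
      exact h1
    rw [Finset.mem_Icc]
    omega
  have hcard : F.card ≤ ((Finset.range (P / q + 1)) ×ˢ (Finset.Icc (-(M : ℤ)) M)).card := by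
    refine Finset.card_le_card_of_injOn (fun p => (p / q, m p)) ?_ ?_
    · intro p hp
      rw [Finset.mem_coe] at hp
      simp only [Finset.coe_product, Set.mem_prod, Finset.mem_coe, Finset.mem_range]
      exact ⟨Nat.lt_succ_of_le (Nat.div_le_div_right (hF p hp).1), hm2 p hp⟩
    · intro p hp p' hp' hpp
      rw [Finset.mem_coe] at hp hp'
      simp only [Prod.mk.injEq] at hpp
      obtain ⟨h1, h2⟩ := hpp
      have h3 : (q : ℤ) ∣ ((p : ℤ) - p') * r.num := by
        refine ⟨k p - k p', ?_⟩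
        rw [hm] at h2
        simp only at h2
        linear_combination h2
      have h4 : IsCoprime (q : ℤ) r.num := by
        rw [Int.isCoprime_iff_gcd_eq_one, Int.gcd_comm]
        have := r.reduced
        rw [Nat.coprime_iff_gcd_eq_one] at this
        rw [Int.gcd_def, Int.natAbs_natCast]
        exact this
      have h5 : (q : ℤ) ∣ (p : ℤ) - p' := h4.dvd_of_dvd_mul_right h3
      have h6 : (p : ℤ) % q = p' % q := Int.emod_eq_emod_iff_emod_sub_eq_zero.2
        (Int.emod_eq_zero_of_dvd h5)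
      have h7 : p % q = p' % q := by exact_mod_cast h6
      rw [← Nat.div_add_mod p q, ← Nat.div_add_mod p' q, h1, h7]
  rw [Finset.card_product, Finset.card_range, Int.card_Icc] at hcard
  have h8 : ((M : ℤ) + 1 - -(M : ℤ)).toNat = 2 * M + 1 := by omega
  rw [h8] at hcard
  have h9 : (F.card : ℝ) ≤ ((P / q : ℕ) + 1) * (2 * M + 1) := by exact_mod_cast hcard
  have h10 : ((P / q : ℕ) : ℝ) ≤ P / q := Nat.cast_div_le
  calc (F.card : ℝ) ≤ ((P / q : ℕ) + 1) * (2 * M + 1) := h9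
    _ ≤ ((P : ℝ) / q + 1) * (2 * (ε * q + 1) + 1) := by gcongr
    _ = _ := by ring


/-- For every `P` the number of cycle lengths up to `P` is `O(P^(17/19))`. -/
theorem card_lengths_le : ∃ C : ℝ, ∀ (P : ℕ) (F : Finset ℕ), 1 ≤ P → (∀ p ∈ F, p ∈ lengths ∧ p ≤ P) →
    (F.card : ℝ) ≤ C * (P : ℝ) ^ ((17 : ℝ) / 19) := by
  classical
  obtain ⟨S, hS, hSum⟩ := exists_sum_bound
  refine ⟨S + 30, fun P F hP hF => ?_⟩
  have hl3 : 1 < Real.log 3 := by
    have h := log_three_bounds.1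
    norm_num at h
    linarith
  have hl3' : Real.log 3 < 11 / 10 := by
    have h := log_three_bounds.2
    norm_num at h
    linarith
  have hl2 : (1 : ℝ) / 2 < Real.log 2 := by
    have h := log_two_bounds.1
    norm_num at h
    linarith
  have hl2' : Real.log 2 < 1 := by
    have h := log_two_bounds.2
    norm_num at h
    linarith
  set α : ℝ := Real.log 2 / Real.log 3 with hα
  have hα0 : 0 < α := by positivity
  have hα1 : α < 1 := by
    rw [hα, div_lt_one (by positivity)]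
    linarith
  have hP1 : (1 : ℝ) ≤ P := by exact_mod_cast hP
  have hP0 : (0 : ℝ) < P := by linarith
  -- representatives
  have hrep : ∀ p ∈ lengths, ∃ x : ℤ, x ≠ 0 ∧ minimalPeriod T x = p := by
    rintro p ⟨hp, x, hx⟩
    by_cases hx0 : x = 0
    · refine ⟨-1, by norm_num, ?_⟩
      have h1 : minimalPeriod T 0 = 1 := by
        rw [minimalPeriod_eq_one_iff_isFixedPt]
        rfl
      have h2 : minimalPeriod T (-1) = 1 := by
        rw [minimalPeriod_eq_one_iff_isFixedPt]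
        rfl
      rw [h2, ← hx, hx0, h1]
    · exact ⟨x, hx0, hx⟩
  choose! f hf using hrep
  -- parameters
  set ε : ℝ := (P : ℝ) ^ (-((17 : ℝ) / 19)) with hε
  have hε0 : 0 < ε := Real.rpow_pos_of_pos hP0 _
  have hεi : ε⁻¹ = (P : ℝ) ^ ((17 : ℝ) / 19) := by
    rw [hε, Real.rpow_neg hP0.le, inv_inv]
  set Q : ℕ := ⌈(P : ℝ) ^ ((34 : ℝ) / 19)⌉₊ with hQ
  have hQ1 : (P : ℝ) ^ ((34 : ℝ) / 19) ≤ Q := Nat.le_ceil _
  have hQpos : (1 : ℝ) ≤ (P : ℝ) ^ ((34 : ℝ) / 19) := Real.one_le_rpow hP1 (by norm_num)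
  have hQ2 : (Q : ℝ) ≤ 2 * (P : ℝ) ^ ((34 : ℝ) / 19) := by
    have := (Nat.ceil_lt_add_one (by positivity : (0 : ℝ) ≤ (P : ℝ) ^ ((34 : ℝ) / 19))).le
    linarith
  have hPQ' : (P : ℝ) ≤ Q := by
    refine le_trans ?_ hQ1
    calc (P : ℝ) = (P : ℝ) ^ (1 : ℝ) := (Real.rpow_one _).symm
      _ ≤ (P : ℝ) ^ ((34 : ℝ) / 19) := Real.rpow_le_rpow_of_exponent_le hP1 (by norm_num)
  have hPQ : P ≤ Q := by exact_mod_cast hPQ'
  have hQ0 : 0 < Q := by omega
  obtain ⟨r, hr, hrQ⟩ := Real.exists_rat_abs_sub_le_and_den_le α hQ0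
  -- lower bound for the denominator
  have hq0 : 0 < r.den := r.den_pos
  have hq1 : (1 : ℝ) ≤ (r.den : ℝ) := by exact_mod_cast hq0
  have hden : (P : ℝ) ^ ((2 : ℝ) / 19) ≤ 2 * (r.den : ℝ) := by
    have h1 : |(r.den : ℝ) * α - r.num| ≤ 1 / (Q + 1) := by
      have h2 : (r.den : ℝ) * α - r.num = r.den * (α - r) := by
        have h3 : (r : ℝ) * r.den = r.num := by exact_mod_cast Rat.mul_den_eq_num r
        linear_combination h3
      rw [h2, abs_mul, abs_of_pos (by linarith)]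
      calc (r.den : ℝ) * |α - r| ≤ r.den * (1 / ((Q + 1) * r.den)) := by gcongr
        _ = 1 / (Q + 1) := by field_simp
    have h4 : (Q : ℝ) ≤ 22000 * (r.den : ℝ) ^ 17 := by
      have hQQ : (0 : ℝ) < Q + 1 := by positivity
      rcases le_or_gt r.num 0 with hnum | hnum
      · have h5 : (1 : ℝ) / 2 * (1 / (Real.log 3)) ≤ |(r.den : ℝ) * α - r.num| := by
          have h6 : (r.num : ℝ) ≤ 0 := by exact_mod_cast hnum
          have h7 : α ≤ (r.den : ℝ) * α := le_mul_of_one_le_left hα0.le hq1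
          refine le_trans ?_ (le_abs_self _)
          have h8 : (1 : ℝ) / 2 * (1 / (Real.log 3)) ≤ α := by
            rw [hα, div_eq_mul_one_div (Real.log 2)]
            gcongr
          linarith
        have h9 : (1 : ℝ) / 2 * (1 / (11 / 10)) ≤ (1 : ℝ) / 2 * (1 / (Real.log 3)) := by gcongr
        have h10 := h9.trans (h5.trans h1)
        rw [le_div_iff₀ hQQ] at h10
        have h11 : (1 : ℝ) ≤ (r.den : ℝ) ^ 17 := one_le_pow₀ hq1
        norm_num at h10
        linarith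
      · have hnum' : 1 ≤ r.num := by omega
        have h5 := log_form r.den r.num hnum'
        have h6 : |((r.den : ℤ) : ℝ) * Real.log 2 - r.num * Real.log 3|
            = |(r.den : ℝ) * α - r.num| * Real.log 3 := by
          rw [← abs_of_pos (by linarith : (0 : ℝ) < Real.log 3), ← abs_mul,
            abs_of_pos (by linarith : (0 : ℝ) < Real.log 3)]
          congr 1
          rw [hα]
          push_cast
          field_simp
        rw [h6] at h5
        -- `num ≤ den`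
        have h7 : (r.num : ℝ) ≤ r.den := by
          have h8 := (abs_le.1 h1).1
          have h9 : (1 : ℝ) / (Q + 1) < 1 := by
            rw [div_lt_one hQQ]
            have : (1 : ℝ) ≤ Q := by exact_mod_cast hQ0
            linarith
          have h10 : (r.den : ℝ) * α ≤ r.den := by nlinarith
          have h11 : (r.num : ℝ) < r.den + 1 := by linarith
          have h12 : r.num < r.den + 1 := by exact_mod_cast h11
          have h13 : r.num ≤ r.den := by omega
          exact_mod_cast h13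
        have hnum0 : (1 : ℝ) ≤ r.num := by exact_mod_cast hnum'
        have h8 : (1 : ℝ) / (20000 * (r.den : ℝ) ^ 17) ≤ 1 / (20000 * (r.num : ℝ) ^ 17) := by
          gcongr
        have h9 : |(r.den : ℝ) * α - r.num| * Real.log 3 ≤ 1 / (Q + 1) * (11 / 10) := by
          gcongr
        have h10 := h8.trans (h5.trans h9)
        rw [div_mul_eq_mul_div, div_le_div_iff₀ (by positivity) hQQ] at h10
        linarith
    have h5 : (P : ℝ) ^ ((34 : ℝ) / 19) ≤ (2 * (r.den : ℝ)) ^ 17 := by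
      calc (P : ℝ) ^ ((34 : ℝ) / 19) ≤ Q := hQ1
        _ ≤ 22000 * (r.den : ℝ) ^ 17 := h4
        _ ≤ (2 * (r.den : ℝ)) ^ 17 := by
          rw [mul_pow]
          gcongr
          norm_num
    have h6 : ((P : ℝ) ^ ((2 : ℝ) / 19)) ^ 17 = (P : ℝ) ^ ((34 : ℝ) / 19) := by
      rw [← Real.rpow_mul_natCast hP0.le]
      norm_num
    rw [← h6] at h5
    exact le_of_pow_le_pow_left₀ (by norm_num) (by positivity) h5
  -- the lengths whose cycle has a large linear form
  set F1 := F.filter (fun p => ε ≤ |lam (f p)|) with hF1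
  set F2 := F.filter (fun p => ¬ ε ≤ |lam (f p)|) with hF2
  have hcardF : F1.card + F2.card = F.card := Finset.card_filter_add_card_filter_not _
  have hc1 : (F1.card : ℝ) ≤ S * (P : ℝ) ^ ((17 : ℝ) / 19) := by
    have h1 := hSum F1 f (fun p hp => by
      have h2 := (hF p (Finset.mem_filter.1 hp).1).1
      exact ⟨h2.1, hf p h2⟩)
    have h2 : (F1.card : ℝ) * ε ≤ ∑ p ∈ F1, |lam (f p)| := by
      rw [← nsmul_eq_mul, ← Finset.sum_const]
      exact Finset.sum_le_sum fun p hp => (Finset.mem_filter.1 hp).2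
    have h3 : (F1.card : ℝ) * ε ≤ S := h2.trans h1
    rw [← hεi]
    rwa [← div_eq_mul_inv, le_div_iff₀ hε0]
  have hc2 : (F2.card : ℝ) ≤ ((P : ℝ) / r.den + 1) * (2 * ε * r.den + 3) := by
    refine card_close_le α r P Q hPQ hr ε hε0.le F2 ?_
    intro p hp
    obtain ⟨h1, h2⟩ := Finset.mem_filter.1 hp
    have h3 := (hF p h1).1
    refine ⟨(hF p h1).2, ((par (minimalPeriod T (f p)) (f p)).card : ℤ), ?_⟩
    push Not at h2
    have h4 : (p : ℝ) * α - (((par (minimalPeriod T (f p)) (f p)).card : ℤ) : ℝ)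
        = lam (f p) / Real.log 3 := by
      rw [lam, hα, (hf p h3).2]
      push_cast
      field_simp
    rw [h4, abs_div, abs_of_pos (by linarith : (0 : ℝ) < Real.log 3), div_lt_iff₀ (by linarith)]
    nlinarith
  -- final estimate
  set W : ℝ := (P : ℝ) ^ ((17 : ℝ) / 19) with hW
  have hW1 : 1 ≤ W := Real.one_le_rpow hP1 (by norm_num)
  have hqQ : (r.den : ℝ) ≤ 2 * (P : ℝ) ^ ((34 : ℝ) / 19) := by
    have : (r.den : ℝ) ≤ Q := by exact_mod_cast hrQ
    linarith
  have e1 : ε * (r.den : ℝ) ≤ 2 * W := by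
    calc ε * (r.den : ℝ) ≤ ε * (2 * (P : ℝ) ^ ((34 : ℝ) / 19)) := by gcongr
      _ = 2 * ((P : ℝ) ^ (-((17 : ℝ) / 19)) * (P : ℝ) ^ ((34 : ℝ) / 19)) := by rw [hε]; ring
      _ = 2 * W := by
        rw [← Real.rpow_add hP0, hW]
        norm_num
  have e2 : ε * (P : ℝ) ≤ W := by
    calc ε * (P : ℝ) = (P : ℝ) ^ (-((17 : ℝ) / 19)) * (P : ℝ) ^ (1 : ℝ) := by
          rw [hε, Real.rpow_one]
      _ = (P : ℝ) ^ ((2 : ℝ) / 19) := by
        rw [← Real.rpow_add hP0]
        norm_num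
      _ ≤ W := Real.rpow_le_rpow_of_exponent_le hP1 (by norm_num)
  have e3 : (P : ℝ) / r.den ≤ 2 * W := by
    rw [div_le_iff₀ (by linarith)]
    have h1 : W * (P : ℝ) ^ ((2 : ℝ) / 19) = P := by
      rw [hW, ← Real.rpow_add hP0]
      norm_num
    calc (P : ℝ) = W * (P : ℝ) ^ ((2 : ℝ) / 19) := h1.symm
      _ ≤ W * (2 * (r.den : ℝ)) := by gcongr
      _ = 2 * W * r.den := by ring
  have e4 : ((P : ℝ) / r.den + 1) * (2 * ε * r.den + 3)
      = 2 * (ε * P) + 3 * ((P : ℝ) / r.den) + 2 * (ε * r.den) + 3 := by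
    field_simp
    ring
  have e5 : (F.card : ℝ) = F1.card + F2.card := by exact_mod_cast hcardF.symm
  rw [e4] at hc2
  rw [e5]
  nlinarith

end Pool.Agent.Lib.MP_edb5be_nt.H13
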