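import Mathlib
import Pool.Agent.Lib.MP_edb5be_nt.H13.Sparse
import Pool.Agent.Lib.MP_edb5be_nt.H13.LamSet

/-!
# Explicit power saving for the number of cycle lengths
-/

set_option autoImplicit false

namespace Pool.Agent.Lib.MP_edb5be_nt.H13

open Function

theorem T_pos {x : ℤ} (h : 0 < x) : 0 < T x := by
  unfold T
  split_ifs with h1 <;> omega

theorem T_neg {x : ℤ} (h : x < 0) : T x < 0 := by
  unfold T
  split_ifs with h1 <;> omega

theorem iterate_pos' {x : ℤ} (h : 0 < x) (n : ℕ) : 0 < T^[n] x := by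
  induction n with
  | zero => simpa using h
  | succ n ih => rw [iterate_succ_apply']; exact T_pos ih

theorem iterate_neg' {x : ℤ} (h : x < 0) (n : ℕ) : T^[n] x < 0 := by
  induction n with
  | zero => simpa using h
  | succ n ih => rw [iterate_succ_apply']; exact T_neg ih

theorem orb_card (x : ℤ) : (orb x).card = minimalPeriod T x := by
  rw [orb, Finset.card_image_of_injOn, Finset.card_range]
  intro i hi j hj hij
  rw [Finset.mem_coe, Finset.mem_range] at hi hj
  exact (iterate_injOn_Iio_minimalPeriod (f := T) (x := x)) hi hj hij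

theorem orb_odd_card (x : ℤ) :
    ((orb x).filter (fun y => y % 2 ≠ 0)).card = (par (minimalPeriod T x) x).card := by
  rw [orb, Finset.filter_image, Finset.card_image_of_injOn]
  · rfl
  · intro i hi j hj hij
    rw [Finset.mem_coe, Finset.mem_filter, Finset.mem_range] at hi hj
    exact (iterate_injOn_Iio_minimalPeriod (f := T) (x := x)) hi.1 hj.1 hij

theorem orb_image {x : ℤ} (hx : x ∈ periodicPts T) : (orb x).image T = orb x := by
  refine Finset.eq_of_subset_of_card_le ?_ ?_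
  · intro y hy
    obtain ⟨z, hz, rfl⟩ := Finset.mem_image.1 hy
    obtain ⟨j, rfl⟩ := (mem_orb hx).1 hz
    exact (mem_orb hx).2 ⟨j + 1, iterate_succ_apply' T j x⟩
  · rw [Finset.card_image_of_injOn]
    intro y hy z hz hyz
    have h1 : y ∈ periodicPts T := (mem_orb_symm hx hy).1
    have h2 : z ∈ periodicPts T := (mem_orb_symm hx hz).1
    exact (bijOn_periodicPts T).injOn h1 h2 hyz

theorem orb_not_known {x : ℤ} (hx : x ∈ periodicPts T) (hk : x ∉ Dyn.known) :
    ∀ y ∈ orb x, y ∉ Dyn.known := by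
  intro y hy hyk
  obtain ⟨h1, h2⟩ := mem_orb_symm hx hy
  obtain ⟨j, rfl⟩ := (mem_orb h1).1 h2
  exact hk (Dyn.iterate_mem_known hyk j)

/-- explicit bound of the sum of `|p log 2 - k log 3|` over unknown cycles of one sign with
different lengths -/
theorem sum_lam_le (F : Finset ℕ) (f : ℕ → ℤ)
    (hF : ∀ p ∈ F, 0 < p ∧ minimalPeriod T (f p) = p ∧ f p ∉ Dyn.known)
    (hsign : (∀ p ∈ F, 0 < f p) ∨ (∀ p ∈ F, f p < 0)) :
    ∑ p ∈ F, |lam (f p)| ≤ 668 / 1000 := by
  classical
  have hper : ∀ p ∈ F, f p ∈ periodicPts T := fun p hp =>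
    minimalPeriod_pos_iff_mem_periodicPts.1 (by rw [(hF p hp).2.1]; exact (hF p hp).1)
  have hdisj : (F : Set ℕ).PairwiseDisjoint (fun p => orb (f p)) := by
    intro p hp p' hp' hne
    rw [Function.onFun, Finset.disjoint_left]
    intro y hy hy'
    apply hne
    rw [← (hF p hp).2.1, ← (hF p' hp').2.1, ← minimalPeriod_of_mem_orb (hper p hp) hy,
      ← minimalPeriod_of_mem_orb (hper p' hp') hy']
  set A := F.biUnion (fun p => orb (f p)) with hA
  have hT : A.image T = A := by
    rw [hA, Finset.biUnion_image]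
    exact Finset.biUnion_congr rfl fun p hp => orb_image (hper p hp)
  have hAsign : (∀ y ∈ A, 0 < y) ∨ (∀ y ∈ A, y < 0) := by
    rcases hsign with h | h
    · left
      intro y hy
      obtain ⟨p, hp, hy⟩ := Finset.mem_biUnion.1 hy
      obtain ⟨j, rfl⟩ := (mem_orb (hper p hp)).1 hy
      exact iterate_pos' (h p hp) j
    · right
      intro y hy
      obtain ⟨p, hp, hy⟩ := Finset.mem_biUnion.1 hy
      obtain ⟨j, rfl⟩ := (mem_orb (hper p hp)).1 hy
      exact iterate_neg' (h p hp) j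
  have hAk : ∀ y ∈ A, y ∉ Dyn.known := by
    intro y hy
    obtain ⟨p, hp, hy⟩ := Finset.mem_biUnion.1 hy
    exact orb_not_known (hper p hp) (hF p hp).2.2 y hy
  have hnice := nice_of hT hAsign hAk
  have hmain := abs_lam_set_le hnice
  have hcard : (A.card : ℝ) = ∑ p ∈ F, (minimalPeriod T (f p) : ℝ) := by
    rw [hA, Finset.card_biUnion hdisj]
    push_cast
    exact Finset.sum_congr rfl fun p _ => by rw [orb_card]
  have hcard2 : ((A.filter (fun y => y % 2 ≠ 0)).card : ℝ) =
      ∑ p ∈ F, ((par (minimalPeriod T (f p)) (f p)).card : ℝ) := by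
    rw [hA, Finset.filter_biUnion, Finset.card_biUnion]
    · push_cast
      exact Finset.sum_congr rfl fun p _ => by rw [orb_odd_card]
    · intro p hp p' hp' hne
      exact (hdisj hp hp' hne).mono (Finset.filter_subset _ _) (Finset.filter_subset _ _)
  rw [hcard, hcard2, Finset.sum_mul, Finset.sum_mul, ← Finset.sum_sub_distrib] at hmain
  have hsum : ∑ p ∈ F, |lam (f p)| = |∑ p ∈ F, lam (f p)| := by
    rcases hsign with h | h
    · have h0 : ∀ p ∈ F, 0 ≤ lam (f p) := by
        intro p hp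
        have hne : f p ≠ 0 := (h p hp).ne'
        rw [lam_eq hne]
        refine Finset.sum_nonneg fun j _ => Real.log_nonneg ?_
        have h1 : (0 : ℝ) < (T^[j] (f p) : ℝ) := by exact_mod_cast iterate_pos' (h p hp) j
        have h2 : 0 < 1 / (3 * (T^[j] (f p) : ℝ)) := by positivity
        linarith
      rw [abs_of_nonneg (Finset.sum_nonneg h0)]
      exact Finset.sum_congr rfl fun p hp => abs_of_nonneg (h0 p hp)
    · have h0 : ∀ p ∈ F, lam (f p) ≤ 0 := by
        intro p hp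
        have hne : f p ≠ 0 := (h p hp).ne
        rw [lam_eq hne]
        refine Finset.sum_nonpos fun j _ => ?_
        have h1 : (T^[j] (f p) : ℝ) ≤ -1 := by
          have := iterate_neg' (h p hp) j
          exact_mod_cast (by omega : T^[j] (f p) ≤ -1)
        have h2 : 1 / (3 * (T^[j] (f p) : ℝ)) ≤ 0 := by
          apply div_nonpos_of_nonneg_of_nonpos one_pos.le
          linarith
        have h3 : -1 / 3 ≤ 1 / (3 * (T^[j] (f p) : ℝ)) := by
          rw [le_div_iff_of_neg (by linarith)]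
          linarith
        exact Real.log_nonpos (by linarith) (by linarith)
      rw [abs_of_nonpos (Finset.sum_nonpos h0), ← Finset.sum_neg_distrib]
      exact Finset.sum_congr rfl fun p hp => abs_of_nonpos (h0 p hp)
  rw [hsum]
  exact hmain

theorem known_lengths {x : ℤ} (hx : x ∈ Dyn.known) : minimalPeriod T x ∈ ({1, 2, 3, 11} : Finset ℕ) := by
  have key : ∀ x ∈ Dyn.known, T^[1] x = x ∨ T^[2] x = x ∨ T^[3] x = x ∨ T^[11] x = x := by
    decide
  have hper : ∀ n : ℕ, T^[n] x = x → minimalPeriod T x ∣ n := fun n h =>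
    IsPeriodicPt.minimalPeriod_dvd h
  rcases key x hx with h | h | h | h
  · have h1 := hper 1 h
    rw [Nat.dvd_one] at h1
    rw [h1]
    decide
  · have h1 := hper 2 h
    have h2 := (Nat.dvd_prime Nat.prime_two).1 h1
    rcases h2 with h2 | h2 <;> rw [h2] <;> decide
  · have h1 := hper 3 h
    have h2 := (Nat.dvd_prime Nat.prime_three).1 h1
    rcases h2 with h2 | h2 <;> rw [h2] <;> decide
  · have h1 := hper 11 h
    have h2 := (Nat.dvd_prime (by norm_num : Nat.Prime 11)).1 h1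
    rcases h2 with h2 | h2 <;> rw [h2] <;> decide

/-- For every `P ≥ 1` at most `9 P^(17/19)` of the integers `p ≤ P` are cycle lengths. -/
theorem card_lengths_le_explicit (P : ℕ) (F : Finset ℕ) (hP : 1 ≤ P)
    (hF : ∀ p ∈ F, p ∈ lengths ∧ p ≤ P) :
    (F.card : ℝ) ≤ 9 * (P : ℝ) ^ ((17 : ℝ) / 19) := by
  classical
  have hP1 : (1 : ℝ) ≤ P := by exact_mod_cast hP
  have hP0 : (0 : ℝ) < P := by linarith
  set W : ℝ := (P : ℝ) ^ ((17 : ℝ) / 19) with hW
  have hW1 : 1 ≤ W := Real.one_le_rpow hP1 (by norm_num)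
  have hWP : W * (P : ℝ) ^ ((2 : ℝ) / 19) = P := by
    rw [hW, ← Real.rpow_add hP0]
    norm_num
  -- trivial bound for small `P`
  have htriv : (F.card : ℝ) ≤ P := by
    have h1 : F ⊆ Finset.Icc 1 P := fun p hp => by
      rw [Finset.mem_Icc]
      exact ⟨(hF p hp).1.1, (hF p hp).2⟩
    have h2 := Finset.card_le_card h1
    rw [Nat.card_Icc, Nat.add_sub_cancel] at h2
    exact_mod_cast h2
  rcases le_or_gt ((P : ℝ) ^ ((2 : ℝ) / 19)) 9 with hsmall | hbig
  · calc (F.card : ℝ) ≤ P := htriv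
      _ = (P : ℝ) ^ ((2 : ℝ) / 19) * W := by rw [mul_comm]; exact hWP.symm
      _ ≤ 9 * W := by gcongr
  have hl3 : 1 < Real.log 3 := by
    have h := log_three_bounds.1
    norm_num at h
    linarith
  have hl3' : Real.log 3 < 11 / 10 := by
    have h := log_three_bounds.2
    norm_num at h
    linarith
  have hl2 : (1 : ℝ) / 2 < Real.log 2 := by
    have h := log_two_bounds.1
    norm_num at h
    linarith
  have hl2' : Real.log 2 < 1 := by
    have h := log_two_bounds.2
    norm_num at h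
    linarith
  set α : ℝ := Real.log 2 / Real.log 3 with hα
  have hα0 : 0 < α := by positivity
  have hα1 : α < 1 := by
    rw [hα, div_lt_one (by positivity)]
    linarith
  -- representatives
  have hrep : ∀ p ∈ lengths, ∃ x : ℤ, minimalPeriod T x = p := fun p hp => hp.2
  choose! f hf using hrep
  -- parameters
  set ε : ℝ := (P : ℝ) ^ (-((17 : ℝ) / 19)) with hε
  have hε0 : 0 < ε := Real.rpow_pos_of_pos hP0 _
  have hεi : ε⁻¹ = W := by
    rw [hε, Real.rpow_neg hP0.le, inv_inv]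
  have hε1 : ε ≤ 1 := by
    rw [← inv_inv ε, hεi]
    exact inv_le_one_of_one_le₀ hW1
  set Q : ℕ := ⌈(P : ℝ) ^ ((34 : ℝ) / 19)⌉₊ with hQ
  have hQ1 : (P : ℝ) ^ ((34 : ℝ) / 19) ≤ Q := Nat.le_ceil _
  have hQpos : (1 : ℝ) ≤ (P : ℝ) ^ ((34 : ℝ) / 19) := Real.one_le_rpow hP1 (by norm_num)
  have hQ2 : (Q : ℝ) ≤ (P : ℝ) ^ ((34 : ℝ) / 19) + 1 :=
    (Nat.ceil_lt_add_one (by positivity : (0 : ℝ) ≤ (P : ℝ) ^ ((34 : ℝ) / 19))).le
  have hPQ' : (P : ℝ) ≤ Q := by
    refine le_trans ?_ hQ1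
    calc (P : ℝ) = (P : ℝ) ^ (1 : ℝ) := (Real.rpow_one _).symm
      _ ≤ (P : ℝ) ^ ((34 : ℝ) / 19) := Real.rpow_le_rpow_of_exponent_le hP1 (by norm_num)
  have hPQ : P ≤ Q := by exact_mod_cast hPQ'
  have hQ0 : 0 < Q := by omega
  obtain ⟨r, hr, hrQ⟩ := Real.exists_rat_abs_sub_le_and_den_le α hQ0
  -- lower bound for the denominator
  have hq0 : 0 < r.den := r.den_pos
  have hq1 : (1 : ℝ) ≤ (r.den : ℝ) := by exact_mod_cast hq0
  have hden : (P : ℝ) ^ ((2 : ℝ) / 19) ≤ 181 / 100 * (r.den : ℝ) := by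
    have h1 : |(r.den : ℝ) * α - r.num| ≤ 1 / (Q + 1) := by
      have h2 : (r.den : ℝ) * α - r.num = r.den * (α - r) := by
        have h3 : (r : ℝ) * r.den = r.num := by exact_mod_cast Rat.mul_den_eq_num r
        linear_combination h3
      rw [h2, abs_mul, abs_of_pos (by linarith)]
      calc (r.den : ℝ) * |α - r| ≤ r.den * (1 / ((Q + 1) * r.den)) := by gcongr
        _ = 1 / (Q + 1) := by field_simp
    have h4 : (Q : ℝ) ≤ 22000 * (r.den : ℝ) ^ 17 := by
      have hQQ : (0 : ℝ) < Q + 1 := by positivity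
      rcases le_or_gt r.num 0 with hnum | hnum
      · have h5 : (1 : ℝ) / 2 * (1 / (Real.log 3)) ≤ |(r.den : ℝ) * α - r.num| := by
          have h6 : (r.num : ℝ) ≤ 0 := by exact_mod_cast hnum
          have h7 : α ≤ (r.den : ℝ) * α := le_mul_of_one_le_left hα0.le hq1
          refine le_trans ?_ (le_abs_self _)
          have h8 : (1 : ℝ) / 2 * (1 / (Real.log 3)) ≤ α := by
            rw [hα, div_eq_mul_one_div (Real.log 2)]
            gcongr
          linarith
        have h9 : (1 : ℝ) / 2 * (1 / (11 / 10)) ≤ (1 : ℝ) / 2 * (1 / (Real.log 3)) := by gcongr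
        have h10 := h9.trans (h5.trans h1)
        rw [le_div_iff₀ hQQ] at h10
        have h11 : (1 : ℝ) ≤ (r.den : ℝ) ^ 17 := one_le_pow₀ hq1
        norm_num at h10
        linarith
      · have hnum' : 1 ≤ r.num := by omega
        have h5 := log_form r.den r.num hnum'
        have h6 : |((r.den : ℤ) : ℝ) * Real.log 2 - r.num * Real.log 3|
            = |(r.den : ℝ) * α - r.num| * Real.log 3 := by
          rw [← abs_of_pos (by linarith : (0 : ℝ) < Real.log 3), ← abs_mul,
            abs_of_pos (by linarith : (0 : ℝ) < Real.log 3)]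
          congr 1
          rw [hα]
          push_cast
          field_simp
        rw [h6] at h5
        have h7 : (r.num : ℝ) ≤ r.den := by
          have h8 := (abs_le.1 h1).1
          have h9 : (1 : ℝ) / (Q + 1) < 1 := by
            rw [div_lt_one hQQ]
            have : (1 : ℝ) ≤ Q := by exact_mod_cast hQ0
            linarith
          have h10 : (r.den : ℝ) * α ≤ r.den := by nlinarith
          have h11 : (r.num : ℝ) < r.den + 1 := by linarith
          have h12 : r.num < r.den + 1 := by exact_mod_cast h11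
          have h13 : r.num ≤ r.den := by omega
          exact_mod_cast h13
        have hnum0 : (1 : ℝ) ≤ r.num := by exact_mod_cast hnum'
        have h8 : (1 : ℝ) / (20000 * (r.den : ℝ) ^ 17) ≤ 1 / (20000 * (r.num : ℝ) ^ 17) := by
          gcongr
        have h9 : |(r.den : ℝ) * α - r.num| * Real.log 3 ≤ 1 / (Q + 1) * (11 / 10) := by
          gcongr
        have h10 := h8.trans (h5.trans h9)
        rw [div_mul_eq_mul_div, div_le_div_iff₀ (by positivity) hQQ] at h10
        linarith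
    have h5 : (P : ℝ) ^ ((34 : ℝ) / 19) ≤ (181 / 100 * (r.den : ℝ)) ^ 17 := by
      calc (P : ℝ) ^ ((34 : ℝ) / 19) ≤ Q := hQ1
        _ ≤ 22000 * (r.den : ℝ) ^ 17 := h4
        _ ≤ (181 / 100 * (r.den : ℝ)) ^ 17 := by
          rw [mul_pow]
          gcongr
          norm_num
    have h6 : ((P : ℝ) ^ ((2 : ℝ) / 19)) ^ 17 = (P : ℝ) ^ ((34 : ℝ) / 19) := by
      rw [← Real.rpow_mul_natCast hP0.le]
      norm_num
    rw [← h6] at h5
    exact le_of_pow_le_pow_left₀ (by norm_num) (by positivity) h5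
  -- the parts of `F`
  set Fk := F.filter (fun p => f p ∈ Dyn.known) with hFk
  set Fu := F.filter (fun p => ¬ f p ∈ Dyn.known) with hFu
  have hc0 : Fk.card + Fu.card = F.card := Finset.card_filter_add_card_filter_not _
  have hck : (Fk.card : ℝ) ≤ 4 := by
    have h1 : Fk ⊆ ({1, 2, 3, 11} : Finset ℕ) := by
      intro p hp
      obtain ⟨h2, h3⟩ := Finset.mem_filter.1 hp
      have h4 := known_lengths h3
      rwa [hf p (hF p h2).1] at h4
    have h2 := Finset.card_le_card h1
    have h3 : ({1, 2, 3, 11} : Finset ℕ).card = 4 := by decide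
    rw [h3] at h2
    exact_mod_cast h2
  set F1 := Fu.filter (fun p => ε ≤ |lam (f p)|) with hF1
  set F2 := Fu.filter (fun p => ¬ ε ≤ |lam (f p)|) with hF2
  have hcardF : F1.card + F2.card = Fu.card := Finset.card_filter_add_card_filter_not _
  set F1p := F1.filter (fun p => 0 < f p) with hF1p
  set F1n := F1.filter (fun p => ¬ 0 < f p) with hF1n
  have hcardF1 : F1p.card + F1n.card = F1.card := Finset.card_filter_add_card_filter_not _
  have hone : ∀ G : Finset ℕ, G ⊆ F1 → ((∀ p ∈ G, 0 < f p) ∨ (∀ p ∈ G, f p < 0)) →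
      (G.card : ℝ) ≤ 668 / 1000 * W := by
    intro G hG hsign
    have hGF : ∀ p ∈ G, p ∈ F ∧ f p ∉ Dyn.known ∧ ε ≤ |lam (f p)| := by
      intro p hp
      obtain ⟨h1, h2⟩ := Finset.mem_filter.1 (hG hp)
      obtain ⟨h3, h4⟩ := Finset.mem_filter.1 h1
      exact ⟨h3, h4, h2⟩
    have h1 := sum_lam_le G f (fun p hp => ⟨(hF p (hGF p hp).1).1.1,
      hf p (hF p (hGF p hp).1).1, (hGF p hp).2.1⟩) hsign
    have h2 : (G.card : ℝ) * ε ≤ ∑ p ∈ G, |lam (f p)| := by
      rw [← nsmul_eq_mul, ← Finset.sum_const]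
      exact Finset.sum_le_sum fun p hp => (hGF p hp).2.2
    have h3 : (G.card : ℝ) * ε ≤ 668 / 1000 := h2.trans h1
    rw [← hεi]
    rwa [← div_eq_mul_inv, le_div_iff₀ hε0]
  have hzero : (0 : ℤ) ∈ Dyn.known := by decide
  have hc1 : (F1.card : ℝ) ≤ 1336 / 1000 * W := by
    have h1 := hone F1p (Finset.filter_subset _ _) (Or.inl fun p hp => (Finset.mem_filter.1 hp).2)
    have h2 := hone F1n (Finset.filter_subset _ _) (Or.inr fun p hp => by
      obtain ⟨h3, h4⟩ := Finset.mem_filter.1 hp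
      have h5 : f p ∉ Dyn.known := (Finset.mem_filter.1 (Finset.mem_filter.1 h3).1).2
      have h6 : f p ≠ 0 := fun h => h5 (h ▸ hzero)
      omega)
    have h3 : (F1.card : ℝ) = F1p.card + F1n.card := by exact_mod_cast hcardF1.symm
    rw [h3]
    linarith
  have hc2 : (F2.card : ℝ) ≤ ((P : ℝ) / r.den + 1) * (2 * ε * r.den + 3) := by
    refine card_close_le α r P Q hPQ hr ε hε0.le F2 ?_
    intro p hp
    obtain ⟨h1, h2⟩ := Finset.mem_filter.1 hp
    have h1' := (Finset.mem_filter.1 h1).1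
    have h3 := (hF p h1').1
    refine ⟨(hF p h1').2, ((par (minimalPeriod T (f p)) (f p)).card : ℤ), ?_⟩
    push Not at h2
    have h4 : (p : ℝ) * α - (((par (minimalPeriod T (f p)) (f p)).card : ℤ) : ℝ)
        = lam (f p) / Real.log 3 := by
      rw [lam, hα, hf p h3]
      push_cast
      field_simp
    rw [h4, abs_div, abs_of_pos (by linarith : (0 : ℝ) < Real.log 3), div_lt_iff₀ (by linarith)]
    nlinarith
  -- final estimate
  have hqQ : (r.den : ℝ) ≤ (P : ℝ) ^ ((34 : ℝ) / 19) + 1 := by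
    have : (r.den : ℝ) ≤ Q := by exact_mod_cast hrQ
    linarith
  have e1 : ε * (r.den : ℝ) ≤ W + 1 := by
    calc ε * (r.den : ℝ) ≤ ε * ((P : ℝ) ^ ((34 : ℝ) / 19) + 1) := by gcongr
      _ = (P : ℝ) ^ (-((17 : ℝ) / 19)) * (P : ℝ) ^ ((34 : ℝ) / 19) + ε := by rw [hε]; ring
      _ = W + ε := by
        rw [← Real.rpow_add hP0, hW]
        norm_num
      _ ≤ W + 1 := by linarith
  have e2 : ε * (P : ℝ) = (P : ℝ) ^ ((2 : ℝ) / 19) := by
    calc ε * (P : ℝ) = (P : ℝ) ^ (-((17 : ℝ) / 19)) * (P : ℝ) ^ (1 : ℝ) := by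
          rw [hε, Real.rpow_one]
      _ = (P : ℝ) ^ ((2 : ℝ) / 19) := by
        rw [← Real.rpow_add hP0]
        norm_num
  have e3 : (P : ℝ) / r.den ≤ 181 / 100 * W := by
    rw [div_le_iff₀ (by linarith)]
    calc (P : ℝ) = W * (P : ℝ) ^ ((2 : ℝ) / 19) := hWP.symm
      _ ≤ W * (181 / 100 * (r.den : ℝ)) := by gcongr
      _ = 181 / 100 * W * r.den := by ring
  have e4 : ((P : ℝ) / r.den + 1) * (2 * ε * r.den + 3)
      = 2 * (ε * P) + 3 * ((P : ℝ) / r.den) + 2 * (ε * r.den) + 3 := by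
    field_simp
    ring
  -- `W ≥ 9^8.5` dominates the lower order terms
  have e6 : (P : ℝ) ^ ((2 : ℝ) / 19) ≤ W / 9 ^ 7 := by
    set v : ℝ := (P : ℝ) ^ ((1 : ℝ) / 19) with hv
    have hv0 : 0 < v := Real.rpow_pos_of_pos hP0 _
    have hv2 : v ^ 2 = (P : ℝ) ^ ((2 : ℝ) / 19) := by
      rw [hv, ← Real.rpow_mul_natCast hP0.le]
      norm_num
    have hv17 : v ^ 17 = W := by
      rw [hv, hW, ← Real.rpow_mul_natCast hP0.le]
      norm_num
    rw [← hv2, ← hv17, le_div_iff₀ (by norm_num)]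
    rw [← hv2] at hbig
    have h1 : (9 : ℝ) ^ 7 ≤ (v ^ 2) ^ 7 := pow_le_pow_left₀ (by norm_num) hbig.le 7
    have hv1 : 1 ≤ v := by nlinarith
    calc v ^ 2 * 9 ^ 7 ≤ v ^ 2 * (v ^ 2) ^ 7 := by gcongr
      _ = v ^ 16 := by ring
      _ ≤ v ^ 17 := pow_le_pow_right₀ hv1 (by norm_num)
  have e7 : (9 : ℝ) * 9 ^ 7 ≤ W := by
    have h1 : 9 * 9 ^ 7 ≤ (P : ℝ) ^ ((2 : ℝ) / 19) * 9 ^ 7 := by
      apply mul_le_mul_of_nonneg_right hbig.le (by norm_num)
    rw [le_div_iff₀ (by norm_num)] at e6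
    linarith
  have e5 : (F.card : ℝ) = Fk.card + (F1.card + F2.card) := by
    rw [← hc0, ← hcardF]
    push_cast
    ring
  rw [e4, e2] at hc2
  rw [e5]
  have e8 : W / 9 ^ 7 ≤ W / 1000 := by
    apply div_le_div_of_nonneg_left (by linarith) (by norm_num) (by norm_num)
  norm_num at e7
  linarith

end Pool.Agent.Lib.MP_edb5be_nt.H13
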